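import Pool.Agent.MBS.CubeDef

/-!
# RB57/Defs : random isomorphisms of quotient spaces (MP_1ac9dc_an, architect helper57)

`Om K` is the space of families of points of the Cantor space indexed by `K`, `P K` the product of
the coin measures. A measurable function `f : Om K → X` is the name of a point of `X` in the
random real model. `RIso E E' E0 Φ` : on the event `E0` the map `Φ` of names is an isomorphism of the
quotients `X / E` and `X' / E'` which maps Borel sets to Borel sets. `RStd E E0 θ` : on the event `E0`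
the quotient `X / E` is embedded in the Cantor space by `θ`.

TARGETS (for AAlg = CAR algebra, BAlg = the crossed product, see MBS/Main):
* `no_riso` (file Inst) : for `ℵ_2 ≤ #K` and `P K E0 ≠ 0` there is no `RIso UEquiv UEquiv E0 Φ` for
  `X = Irr BAlg`, `X' = Irr AAlg`;
* `no_rstd` : for uncountable `K` and `P K E0 ≠ 0` there is no `RStd UEquiv E0 θ` for `Irr AAlg`, `Irr BAlg`.

PAPER PROOF of the abstract theorem `no_riso_abs` (file Fin).
Data: probability space `(Y, m)`, `I : Y → X`, two maps `Sa Sb : Y → Y` preserving `m`,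
two maps (schemes) `w w' : Y → C` (`C` = Cantor space), conull sets `Y1`, `Y1'` such that for
`y y' ∈ Y1` : `E (I y) (I y')` and `w y = w y'` imply `y = y'`; same for `Y1'`, `w'`;
`E (I (Sa y)) (I y)`, `E (I (Sb y)) (I y)` a.e.; for `S = id, Sa, Sb` the pair `(w (S y), w' y)` can be completed by
some `z y` to an isomorphism of probability spaces `Y → C × C × C` (`Triple`); strong ergodicity (SE): a
measurable `F : Y → X'` with `E' (F (Sa y)) (F y)` and `E' (F (Sb y)) (F y)` a.e. is equivalent to a constant on a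
set of positive measure.
1. (Fib) for `V ⊆ Y` measurable `{(c, x) | ∃ y ∈ Y1 ∩ V, w y = c, E (I y) x}` is measurable (Lusin-Souslin).
2. (Sec) for every index `i` there are a countable `A ⊆ K` and a measurable `s : Om K → Y → X'` depending on the
   coordinates in `A` only with: for every measurable `N : Om K → Y` with `w (N ω) = ω i` and a good law,
   `E' (s ω (N ω)) (Φ (I ∘ N) ω)` for a.e. `ω ∈ E0`. (Structure `IsSec`.)
   Proof: `D n = {(ω, x) | ∃ y ∈ Y1 ∩ V n, w y = ω i, E (I y) x}` (`V n` separating, `V none = univ`), `D' n` from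
   (r3); `Γ = {(ω, y, x) | (ω, x) ∈ D' none, ∀ n, (ω, x) ∈ D' n ↔ y ∈ V n}`; it is nonempty over a.e. `(ω, N ω)` for a test
   name `N` (`x = Φ (I ∘ N) ω`); measurable selection (Sel2); for another `N`: `h ω = s ω (N ω)`, `f` from (r2)
   with `E' (Φ f) h`; (r3) gives `f ω ~ I y`, `y ∈ Y1`, `w y = ω i`, `y ∈ V n ↔ N ω ∈ V n`, so `y = N ω`; now (r1).
3. (Free pair) `i ≠ j` with `i ∉ A' j` and `j ∉ A i` (`A`, `A'` for the two schemes).
4. For `S = id, Sa, Sb` and `N ω = L (ω i, ω j, ω k)` (`L` inverse of the triple of `S`, `k` fresh):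
   `s i ω (S (N ω)) ~ Φ (I ∘ S ∘ N) ω ~ Φ (I ∘ N) ω ~ s' j ω (N ω)`, i.e. for a.e. `(ω, y)`, `ω ∈ E0`:
   `σ ω (S y) ~ σ' ω y`, where `σ ω y = s i (update ω i (w y)) y`, `σ' ω y = s' j (update ω j (w' y)) y`.
   So `F = σ' ω` is almost invariant: `F (Sa y) ~ σ ω (Sa y) ~ F y`. By (SE), `F ~ x0` on a set of positive measure,
   and so is `σ ω`.
5. Hence `s i (update ω i c) y1 ~ s i (update ω i c) y2` with positive probability for `y1 y2` independent in the
   fibre `{w = c}`, i.e. for `N1 ω = L (ω i, ω k1, ω k2)`, `N2 ω = L (ω i, ω k3, ω k4)`; so `I (N1 ω) ~ I (N2 ω)`, `N1 ω = N2 ω`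
   with positive probability: contradiction.
-/

namespace RB57

open scoped ENNReal Cardinal
open MeasureTheory TopologicalSpace MBS

noncomputable section

/-- the Cantor space -/
abbrev C : Type := Cube ℕ

/-- the coin measure on the Cantor space -/
abbrev μC : Measure C := μc ℕ

/-- families of points of the Cantor space -/
abbrev Om (K : Type) : Type := K → Cube ℕ

/-- the product measure -/
def P (K : Type) : Measure (Om K) := Measure.infinitePi (fun _ : K => μc ℕ)

instance (K : Type) : IsProbabilityMeasure (P K) :=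
  inferInstanceAs (IsProbabilityMeasure (Measure.infinitePi (fun _ : K => μc ℕ)))

/-- On the event `E0` the map `Φ` of random points is an isomorphism of `X / E` and `X' / E'`, under which
the image of a Borel set is a Borel set. -/
structure RIso {K X X' : Type} [MeasurableSpace X] [MeasurableSpace X'] (E : X → X → Prop)
    (E' : X' → X' → Prop) (E0 : Set (Om K)) (Φ : (Om K → X) → (Om K → X')) : Prop where
  meas : ∀ f, Measurable f → Measurable (Φ f)
  r1 : ∀ f f', Measurable f → Measurable f' →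
    ∀ᵐ ω ∂(P K), ω ∈ E0 → (E (f ω) (f' ω) ↔ E' (Φ f ω) (Φ f' ω))
  r2 : ∀ h, Measurable h → ∃ f, Measurable f ∧ ∀ᵐ ω ∂(P K), ω ∈ E0 → E' (Φ f ω) (h ω)
  r3 : ∀ D : Set (Om K × X), MeasurableSet D →
    (∀ ω x y, E x y → ((ω, x) ∈ D ↔ (ω, y) ∈ D)) →
    ∃ D' : Set (Om K × X'), MeasurableSet D' ∧ ∀ f h, Measurable f → Measurable h →
      ∀ᵐ ω ∂(P K), ω ∈ E0 → E' (Φ f ω) (h ω) → ((ω, f ω) ∈ D ↔ (ω, h ω) ∈ D')

/-- On the event `E0` the quotient `X / E` is embedded in the Cantor space by `θ`. -/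
structure RStd {K X : Type} [MeasurableSpace X] (E : X → X → Prop) (E0 : Set (Om K))
    (θ : Om K × X → C) : Prop where
  meas : Measurable θ
  emb : ∀ f f', Measurable f → Measurable f' →
    ∀ᵐ ω ∂(P K), ω ∈ E0 → (E (f ω) (f' ω) ↔ θ (ω, f ω) = θ (ω, f' ω))

/-- `(q1, q2)` can be completed to an isomorphism of the probability spaces `(Y, m)` and `C × C × C`,
with third component `z` and inverse `L`. -/
structure Triple {Y : Type} [MeasurableSpace Y] (m : Measure Y) (q1 q2 z : Y → C)
    (L : C × C × C → Y) : Prop where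
  m1 : Measurable q1
  m2 : Measurable q2
  mz : Measurable z
  mL : Measurable L
  mp : MeasurePreserving (fun y => (q1 y, q2 y, z y)) m (μC.prod (μC.prod μC))
  left : ∀ y, L (q1 y, q2 y, z y) = y
  r1 : ∀ c, q1 (L c) = c.1
  r2 : ∀ c, q2 (L c) = c.2.1
  r3 : ∀ c, z (L c) = c.2.2

/-- `B` depends on the coordinates in `A` only -/
def DepS {K Z : Type} (A : Set K) (B : Set (Om K × Z)) : Prop :=
  ∀ ω ω' z, (∀ k ∈ A, ω k = ω' k) → ((ω, z) ∈ B ↔ (ω', z) ∈ B)

/-- `s` depends on the coordinates in `A` only -/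
def DepF {K Y X' : Type} (A : Set K) (s : Om K → Y → X') : Prop :=
  ∀ ω ω' y, (∀ k ∈ A, ω k = ω' k) → s ω y = s ω' y

open Classical in
/-- change the coordinate `i` to `c` -/
def upd {K : Type} (ω : Om K) (i : K) (c : C) : Om K := Function.update ω i c

/-- The law of `(ω, N ω)`, seen on the coordinates in `A`, is the law of
`(upd ω i (w y), y)`, `(ω, y)` random. -/
def LawOK {K Y : Type} [MeasurableSpace Y] (m : Measure Y) (w : Y → C) (i : K) (A : Set K)
    (N : Om K → Y) : Prop :=
  ∀ B : Set (Om K × Y), MeasurableSet B → DepS A B →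
    (∀ᵐ p ∂((P K).prod m), (upd p.1 i (w p.2), p.2) ∈ B) → ∀ᵐ ω ∂(P K), (ω, N ω) ∈ B

/-- `s` computes `Φ (I ∘ N)` for all names `N` with `w (N ω) = ω i` and a good law. -/
structure IsSec {K X X' Y : Type} [MeasurableSpace X] [MeasurableSpace X'] [MeasurableSpace Y]
    (E' : X' → X' → Prop) (E0 : Set (Om K)) (Φ : (Om K → X) → (Om K → X')) (m : Measure Y)
    (I : Y → X) (w : Y → C) (i : K) (A : Set K) (s : Om K → Y → X') : Prop where
  ctb : A.Countable
  depE : ∀ ω ω' : Om K, (∀ k ∈ A \ {i}, ω k = ω' k) → (ω ∈ E0 ↔ ω' ∈ E0)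
  meas : Measurable (fun p : Om K × Y => s p.1 p.2)
  dep : DepF A s
  key : ∀ N : Om K → Y, Measurable N → (∀ ω, w (N ω) = ω i) → LawOK m w i A N →
    ∀ᵐ ω ∂(P K), ω ∈ E0 → E' (s ω (N ω)) (Φ (fun ω => I (N ω)) ω)

end

end RB57
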