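import Pool.Agent.RB57.TripS
import Pool.Agent.MBS.Erg

/-!
# RB57/Trans : the fibres of a scheme are partial transversals

`ae_diff`: for `h ≠ 1` and an infinite set `S ⊆ FB`, for a.e. `y` the set `{x ∈ S | y (h⁻¹ * x) ≠ y x}` is infinite.
It is enough that for every finite `F` the set `V = {y | ∀ x ∈ S \ F, y (h⁻¹ * x) = y x}` is null
(there are countably many finite sets `F`). As in `MBS.erg_fix`: for `x ∈ S \ F` the Walsh function of
`{x, h⁻¹ * x}` is `1` on `V`, so `∫ 1_V walsh {x, h⁻¹ x} = μ V` for infinitely many different finite sets, and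
Parseval (`MBS.parseval`, `Summable.tendsto_cofinite_zero`) gives `μ V = 0`. (`V` is closed.)

`exists_trans`: `Y1 = {y | ∀ h ≠ 1, {x | x ∈ V ∧ j x = none ∧ y (h⁻¹ * x) ≠ y x}.Infinite}`, measurable (countable group;
infinite = for every finite set `F` there is an `x` outside `F`) and conull (`ae_diff`, `Sch.non`). Let `y, y' ∈ Y1`,
`ww j e y = ww j e y'`, i.e. `TJ j y x = TJ j y' x` for all `x ∈ V`, and `g • y = y'`,
`y' x = xor (S x) (y (h⁻¹ * x))`, `S` of finite support (`LampG.exists_eq`).
* `h ≠ 1`: for `x ∈ V` with `j x = none` we have `y' x = y x`, so `y (h⁻¹ * x) = y x` for all these `x` outside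
  the support of `S`: contradiction to `y ∈ Y1`.
* `h = 1`: `y' x = xor (S x) (y x)`. If `S r = true` for some `r ∉ V`, then `S x = true` for the infinitely many `x` with
  `j x = some r` (compare `TJ j y x = TJ j y' x`): impossible. So `S r = false` for `r ∉ V`, hence for `x ∈ V`:
  `S x = false` too (`j x = none` or `j x = some r`, `r ∉ V`). So `y = y'`.
-/

namespace RB57

open scoped ENNReal Cardinal
open MeasureTheory TopologicalSpace MBS

noncomputable section

theorem ae_diff_aux {S : Set FB} (hS : S.Infinite) {h : FB} (hh : h ≠ 1) (F : Finset FB) :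
    ∀ᵐ y ∂(μc FB), ∃ x, x ∈ S ∧ x ∉ F ∧ y (h⁻¹ * x) ≠ y x := by
  classical
  set V : Set (Cube FB) := {y | ∀ x, x ∈ S → x ∉ F → y (h⁻¹ * x) = y x} with hVdef
  have hVc : IsClosed V := by
    have : V = ⋂ x ∈ {x | x ∈ S ∧ x ∉ F}, {y : Cube FB | y (h⁻¹ * x) = y x} := by
      ext y
      simp only [hVdef, Set.mem_ofPred_eq, Set.mem_iInter, and_imp]
    rw [this]
    refine isClosed_biInter fun x _ => ?_
    exact isClosed_eq (continuous_apply _) (continuous_apply _)
  have hV : MeasurableSet V := hVc.measurableSet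
  have h1 : ∀ x, x ∈ S → x ∉ F → ∫ y, ergInd FB V y * walsh {x, h⁻¹ * x} y ∂(μc FB) =
      (μc FB).real V := by
    intro x hx hxF
    rw [← ergInd_integral FB hV]
    congr 1
    funext y
    unfold ergInd
    by_cases hy : y ∈ V
    · rw [Set.indicator_of_mem hy, one_mul]
      have h3 : y (h⁻¹ * x) = y x := hy x hx hxF
      have hne : x ≠ h⁻¹ * x := by
        intro h4
        apply hh
        have : h⁻¹ = 1 := by
          have h5 : h⁻¹ * x = 1 * x := by rw [one_mul]; exact h4.symm
          exact mul_right_cancel h5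
        exact inv_eq_one.1 this
      unfold walsh
      rw [Finset.prod_pair hne, h3]
      cases y x <;> simp
    · rw [Set.indicator_of_notMem hy, zero_mul]
  have h2 := (parseval (ergInd FB V) (ergInd_measurable FB hV) 1 (ergInd_le FB V)).summable
  have h3 := h2.tendsto_cofinite_zero
  have h4 : (μc FB).real V = 0 := by
    by_contra hne
    have hpos : 0 < ((μc FB).real V) ^ 2 := by positivity
    have h5 := h3.eventually (gt_mem_nhds hpos)
    have h6 : {A : Finset FB | ¬ (∫ x, ergInd FB V x * walsh A x ∂(μc FB)) ^ 2 <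
        ((μc FB).real V) ^ 2}.Finite := Filter.eventually_cofinite.1 h5
    have h7 : S ⊆ (F : Set FB) ∪
        ⋃ A ∈ {A : Finset FB | ¬ (∫ x, ergInd FB V x * walsh A x ∂(μc FB)) ^ 2 <
        ((μc FB).real V) ^ 2}, (A : Set FB) := by
      intro x hx
      by_cases hxF : x ∈ F
      · exact Or.inl hxF
      · right
        refine Set.mem_biUnion (x := ({x, h⁻¹ * x} : Finset FB)) ?_ (by simp)
        change ¬ (∫ y, ergInd FB V y * walsh {x, h⁻¹ * x} y ∂(μc FB)) ^ 2 <
          ((μc FB).real V) ^ 2
        rw [h1 x hx hxF]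
        exact lt_irrefl _
    exact hS ((F.finite_toSet.union (h6.biUnion fun A _ => A.finite_toSet)).subset h7)
  have h5 : μc FB V = 0 := (measureReal_eq_zero_iff).1 h4
  rw [ae_iff]
  refine measure_mono_null ?_ h5
  intro y hy x hx hxF
  by_contra hne
  exact hy ⟨x, hx, hxF, hne⟩

theorem infinite_iff_fin (T : Set FB) : T.Infinite ↔ ∀ F : Finset FB, ∃ x, x ∈ T ∧ x ∉ F := by
  constructor
  · intro hT F
    obtain ⟨x, hx, hxF⟩ := hT.exists_notMem_finset F
    exact ⟨x, hx, hxF⟩
  · intro h hfin
    obtain ⟨x, hx, hxF⟩ := h hfin.toFinset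
    exact hxF (hfin.mem_toFinset.2 hx)

theorem ae_diff {S : Set FB} (hS : S.Infinite) {h : FB} (hh : h ≠ 1) :
    ∀ᵐ y ∂(μc FB), {x | x ∈ S ∧ y (h⁻¹ * x) ≠ y x}.Infinite := by
  have h1 := ae_all_iff.2 (fun F : Finset FB => ae_diff_aux hS hh F)
  filter_upwards [h1] with y hy
  rw [infinite_iff_fin]
  intro F
  obtain ⟨x, hx, hxF, hne⟩ := hy F
  exact ⟨x, ⟨hx, hne⟩, hxF⟩

theorem exists_trans {V : Set FB} {j : FB → Option FB} (h : Sch V j) (e : ℕ ≃ V) :
    ∃ Y1 : Set (Cube FB), MeasurableSet Y1 ∧ (∀ᵐ y ∂(μc FB), y ∈ Y1) ∧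
      ∀ y ∈ Y1, ∀ y' ∈ Y1, ww j e y = ww j e y' →
        (∃ g : LampG FB FB, g • y = y') → y = y' := by
  classical
  refine ⟨{y | ∀ k : FB, k ≠ 1 → ∀ F : Finset FB, ∃ x, (x ∈ V ∧ j x = none) ∧ x ∉ F ∧
    y (k⁻¹ * x) ≠ y x}, ?_, ?_, ?_⟩
  · have : {y : Cube FB | ∀ k : FB, k ≠ 1 → ∀ F : Finset FB, ∃ x, (x ∈ V ∧ j x = none) ∧ x ∉ F ∧
        y (k⁻¹ * x) ≠ y x} = ⋂ k ∈ {k : FB | k ≠ 1}, ⋂ F : Finset FB,
        ⋃ x ∈ {x | (x ∈ V ∧ j x = none) ∧ x ∉ F}, {y : Cube FB | y (k⁻¹ * x) ≠ y x} := by
      ext y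
      simp only [Set.mem_ofPred_eq, Set.mem_iInter, Set.mem_iUnion, exists_prop, and_assoc]
    rw [this]
    refine MeasurableSet.biInter (Set.to_countable _) fun k _ => ?_
    refine MeasurableSet.iInter fun F => ?_
    refine MeasurableSet.biUnion (Set.to_countable _) fun x _ => ?_
    have h2 : MeasurableSet {y : Cube FB | y (k⁻¹ * x) = y x} :=
      measurableSet_eq_fun (measurable_pi_apply _) (measurable_pi_apply _)
    exact h2.compl
  · have h1 : ∀ k : FB, ∀ᵐ y ∂(μc FB), k ≠ 1 → ∀ F : Finset FB, ∃ x, (x ∈ V ∧ j x = none) ∧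
        x ∉ F ∧ y (k⁻¹ * x) ≠ y x := by
      intro k
      by_cases hk : k = 1
      · exact Filter.Eventually.of_forall fun y h => absurd hk h
      · have h2 := ae_all_iff.2 (fun F : Finset FB => ae_diff_aux h.non hk F)
        filter_upwards [h2] with y hy _ F
        exact hy F
    exact ae_all_iff.2 h1
  · rintro y hy y' - hw ⟨g, hg⟩
    obtain ⟨S, k, hS, hgx⟩ := g.exists_eq
    have hy' : ∀ x, y' x = xor (S x) (y (k⁻¹ * x)) := by
      intro x
      rw [← hg, hgx]
      rfl
    have hT : ∀ x ∈ V, TJ j y x = TJ j y' x := by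
      intro x hx
      have h1 := congrFun hw (e.symm ⟨x, hx⟩)
      simpa [ww] using h1
    by_cases hk : k = 1
    · subst hk
      have hy1 : ∀ x, y' x = xor (S x) (y x) := by
        intro x
        rw [hy']
        simp
      have hout : ∀ r, r ∉ V → S r = false := by
        intro r hr
        by_contra hne
        have hSr : S r = true := by simpa using hne
        refine (h.inf r hr) (hS.subset ?_)
        intro x hx
        have hx' : j x = some r := hx
        have h1 := hT x (h.lt x r hx').1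
        simp only [TJ, hx', Option.elim_some, hy1, hSr] at h1
        show S x = true
        cases hSx : S x
        · rw [hSx] at h1
          cases y x <;> cases y r <;> simp at h1
        · rfl
      funext x
      rw [hy1]
      by_cases hx : x ∈ V
      · have h1 := hT x hx
        cases hj : j x with
        | none =>
          simp only [TJ, hj, Option.elim_none, hy1] at h1
          cases hSx : S x
          · simp
          · rw [hSx] at h1
            cases hyx : y x <;> rw [hyx] at h1 <;> simp at h1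
        | some r =>
          have hr := (h.lt x r hj).2.1
          simp only [TJ, hj, Option.elim_some, hy1, hout r hr] at h1
          cases hSx : S x
          · simp
          · rw [hSx] at h1
            cases hyx : y x <;> cases hyr : y r <;> rw [hyx, hyr] at h1 <;> simp at h1
      · rw [hout x hx]
        simp
    · exfalso
      obtain ⟨x, ⟨hxV, hj⟩, hxF, hne⟩ := hy k hk hS.toFinset
      have hSx : S x = false := by
        by_contra hne2
        exact hxF (hS.mem_toFinset.2 (by simpa using hne2))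
      have h1 := hT x hxV
      simp only [TJ, hj, Option.elim_none, hy', hSx] at h1
      apply hne
      cases h2 : y x <;> cases h3 : y (k⁻¹ * x) <;> rw [h2, h3] at h1 <;> simp at h1 ⊢

end

end RB57
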