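import Pool.Agent.RB57.Fin
import Pool.Agent.RB57.Trans
import Pool.Agent.MBS.Main

/-!
# RB57/Inst : no random isomorphism between the spectra of `BAlg` and `AAlg`

`no_riso_abs` with `Y = Cube F2`, `m = μc F2`, `I = Ind e d` (`exists_enum F2 F2`, `exists_irr freeB`), `Sa y = shift F2 (of true) • y`,
`Sb y = shift F2 (of false) • y` (`mp_lamp`), `E = UEquiv`; `ha, hb` : `ind_inv`; schemes on `V1 = Vc 0`, `V2 = Vc 2` (`exists_sch`),
`e1, e2` enumerations (`Vc_infinite`); `Y1` = intersection of the two sets of `exists_trans` with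
`FreePts GB (Cube F2)` (`ae_free`, `measurableSet_freePts`), `ht` by `ind_uequiv_iff`; triples by `exists_triple` with `g = 1`,
`g = of true`, `g = of false` (`mem_Vc_mul`, `Vc_disjoint`; the rest contains `Vc 1` resp. `Vc 0`; for `g = 1`:
`shift F2 1 • y = y`); `hSE` : `MBS.core` with `isCAR_red`, `gap`: `F x ~ F y` on `V`, `x0 = F y`.
Hypotheses: the two facts on `Irr` (proved in H69M for all separable algebras).
-/

namespace RB57

open scoped ENNReal Cardinal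
open MeasureTheory TopologicalSpace MBS

noncomputable section

theorem no_riso_of (sA : StandardBorelSpace (Irr AAlg)) (sB : StandardBorelSpace (Irr BAlg))
    (eA : MeasurableSet {p : Irr AAlg × Irr AAlg | UEquiv p.1 p.2})
    (eB : MeasurableSet {p : Irr BAlg × Irr BAlg | UEquiv p.1 p.2})
    {K : Type} (hK : ℵ_ 2 ≤ Cardinal.mk K) {E0 : Set (Om K)} (hE0 : MeasurableSet E0)
    (h0 : P K E0 ≠ 0) (Φ : (Om K → Irr BAlg) → (Om K → Irr AAlg)) :
    ¬ RIso (UEquiv (A := BAlg)) (UEquiv (A := AAlg)) E0 Φ := by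
  intro hΦ
  obtain ⟨e⟩ := exists_enum F2 F2
  obtain ⟨d⟩ := exists_irr (I := F2) (H := F2) freeB
  obtain ⟨M, hM⟩ := isCAR_red
  obtain ⟨j1, hj1⟩ := exists_sch 0
  obtain ⟨j2, hj2⟩ := exists_sch 2
  have i1 : Infinite (Vc 0) := (Vc_infinite 0).to_subtype
  have i2 : Infinite (Vc 2) := (Vc_infinite 2).to_subtype
  obtain ⟨e1⟩ : Nonempty (ℕ ≃ Vc 0) := nonempty_equiv_of_countable
  obtain ⟨e2⟩ : Nonempty (ℕ ≃ Vc 2) := nonempty_equiv_of_countable
  have d20 : (2 : ZMod 4) ≠ 0 := by decide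
  have d23 : (2 : ZMod 4) ≠ 0 - 1 := by decide
  have d12 : (1 : ZMod 4) ≠ 2 := by decide
  have d10 : (1 : ZMod 4) ≠ 0 := by decide
  have d13 : (1 : ZMod 4) ≠ 0 - 1 := by decide
  obtain ⟨z0, L0, t0⟩ := exists_triple hj1 hj2 e1 e2 1 (by simp)
    (fun x hx => by rw [one_mul]; exact Vc_disjoint d20 hx)
    ((Vc_infinite 1).mono fun x hx => ⟨Vc_disjoint d12 hx, by
      rw [one_mul]; exact Vc_disjoint d10 hx⟩)
  have tb : ∀ b : Bool, ∃ z L, Triple (μc FB)
      (fun y => ww j1 e1 (shift FB (FreeGroup.of b) • y)) (ww j2 e2) z L := fun b =>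
    exists_triple hj1 hj2 e1 e2 (FreeGroup.of b) (by rw [FreeGroup.norm_of])
      (fun x hx => by rw [mem_Vc_mul]; exact Vc_disjoint d23 hx)
      ((Vc_infinite 1).mono fun x hx => ⟨Vc_disjoint d12 hx, by
        rw [mem_Vc_mul]; exact Vc_disjoint d13 hx⟩)
  obtain ⟨za, La, ta⟩ := tb true
  obtain ⟨zb, Lb, tb⟩ := tb false
  obtain ⟨Ya, hYa, hYa1, hYat⟩ := exists_trans hj1 e1
  obtain ⟨Yb, hYb, hYb1, hYbt⟩ := exists_trans hj2 e2
  let Y1 : Set (Cube F2) := Ya ∩ Yb ∩ FreePts GB (Cube F2)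
  have hY1 : MeasurableSet Y1 := (hYa.inter hYb).inter measurableSet_freePts
  have h1 : ∀ᵐ y ∂(μc F2), y ∈ Y1 := by
    filter_upwards [hYa1, hYb1, ae_free F2 F2 freeB] with y h1 h2 h3
    exact ⟨⟨h1, h2⟩, h3⟩
  have s1 : ∀ y : Cube F2, shift F2 (1 : F2) • y = y := by
    intro y
    funext i
    simp
  have t0' : Triple (μc F2) (ww j1 e1) (ww j2 e2) z0 L0 := by
    have e3 : (fun y => ww j1 e1 (shift FB (1 : FB) • y)) = ww j1 e1 := by
      funext y
      rw [s1]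
    rw [← e3]
    exact t0
  refine no_riso_abs (Y := Cube F2) hK (E := UEquiv (A := BAlg)) (E' := UEquiv (A := AAlg))
    ⟨UEquiv.refl, UEquiv.symm, UEquiv.trans⟩ ⟨UEquiv.refl, UEquiv.symm, UEquiv.trans⟩ eB eA
    (μc F2) (I := Ind e d) (ind_measurable e d)
    (Sa := fun y => shift F2 (FreeGroup.of true) • y)
    (Sb := fun y => shift F2 (FreeGroup.of false) • y) (mp_lamp F2 F2 _) (mp_lamp F2 F2 _)
    (ind_inv freeB e d _) (ind_inv freeB e d _) (w := ww j1 e1) (w' := ww j2 e2) hY1 h1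
    (fun y hy y' hy' hw he => ?_) (fun y hy y' hy' hw he => ?_) t0' ta tb ?_ hE0 h0 hΦ
  · exact hYat y hy.1.1 y' hy'.1.1 hw ((ind_uequiv_iff e d y y' hy.2 hy'.2).1 he)
  · exact hYbt y hy.1.2 y' hy'.1.2 hw ((ind_uequiv_iff e d y y' hy.2 hy'.2).1 he)
  · intro F hF hFa hFb
    obtain ⟨y, V, hV, hVpos, hVe⟩ := core M hM (μc F2)
      (fun x => shift F2 (FreeGroup.of true) • x) (fun x => shift F2 (FreeGroup.of false) • x)
      (measurable_smulB _) (measurable_smulB _) gap F hF hFa hFb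
    exact ⟨F y, hVpos.trans_le (measure_mono fun x hx => hVe x hx)⟩

end

end RB57
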