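import Pool.Agent.MBS.Sel

/-!
# RB57/Sel2 : almost everywhere measurable selection along a measurable map

Like `MBS.sel` (whose proof is to be adapted), but the hypothesis is only that `f ω` lies in the range
of `q` for a.e. `ω`, and the conclusion is `q (s (f ω)) = f ω` for a.e. `ω`. (The point: the range of `q` is
analytic.) In the proof of `MBS.sel_cont` put `μ = Measure.map f P`; the hypothesis `hr` is used only for
`∀ᵐ x ∂μ, x ∈ H []`, where `H [] = toMeasurable μ (range h) ∩ closure (range h)` is a measurable set: by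
`ae_map_iff` this means `f ω ∈ H []` for a.e. `ω`, true because `f ω ∈ range h ⊆ H []` a.e. The rest gives
`∀ᵐ x ∂μ, h (s x) = x`, and `ae_of_ae_map`.
-/

namespace RB57

open scoped ENNReal
open MeasureTheory Set MBS

noncomputable section

theorem sel_cont2 {X : Type*} [MetricSpace X] [SecondCountableTopology X] [MeasurableSpace X]
    [BorelSpace X] (μ : Measure X) [IsFiniteMeasure μ] (h : (ℕ → ℕ) → X) (hc : Continuous h)
    (hr : ∀ᵐ x ∂μ, x ∈ toMeasurable μ (range h) ∩ closure (range h)) :
    ∃ s : X → (ℕ → ℕ), Measurable s ∧ ∀ᵐ x ∂μ, h (s x) = x := by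
  classical
  let A : List ℕ → Set X := fun t => h '' {w | selTk w t.length = t}
  let H : List ℕ → Set X := fun t => toMeasurable μ (A t) ∩ closure (A t)
  have hHm : ∀ t, MeasurableSet (H t) := fun t =>
    (measurableSet_toMeasurable _ _).inter isClosed_closure.measurableSet
  have hAH : ∀ t, A t ⊆ H t := fun t =>
    subset_inter (subset_toMeasurable _ _) subset_closure
  have hHA : ∀ t, μ (H t) ≤ μ (A t) := fun t =>
    (measure_mono inter_subset_left).trans (measure_toMeasurable _).le
  have hAU : ∀ t, A t ⊆ ⋃ k, A (t ++ [k]) := by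
    rintro t x ⟨w, hw, rfl⟩
    refine mem_iUnion.2 ⟨w t.length, w, ?_, rfl⟩
    have hw' : selTk w t.length = t := hw
    show selTk w (t ++ [w t.length]).length = t ++ [w t.length]
    rw [List.length_append, List.length_singleton]
    show selTk w t.length ++ [w t.length] = _
    rw [hw']
  have hN : ∀ t, μ (H t \ ⋃ k, H (t ++ [k])) = 0 := by
    intro t
    have hUm : MeasurableSet (⋃ k, H (t ++ [k])) := MeasurableSet.iUnion fun k => hHm _
    have h1 : A t ⊆ H t ∩ ⋃ k, H (t ++ [k]) :=
      subset_inter (hAH t) ((hAU t).trans (iUnion_mono fun k => hAH _))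
    have h2 : μ (H t) ≤ μ (H t ∩ ⋃ k, H (t ++ [k])) := (hHA t).trans (measure_mono h1)
    have h3 := measure_inter_add_sdiff (μ := μ) (H t) hUm
    have h4 : μ (H t ∩ ⋃ k, H (t ++ [k])) ≠ ⊤ := measure_ne_top _ _
    have h5 : μ (H t ∩ ⋃ k, H (t ++ [k])) + μ (H t \ ⋃ k, H (t ++ [k])) ≤
        μ (H t ∩ ⋃ k, H (t ++ [k])) + 0 := by
      rw [h3, add_zero]; exact h2
    have h6 := (ENNReal.add_le_add_iff_left h4).1 h5
    exact le_antisymm h6 bot_le
  have hgood : ∀ᵐ x ∂μ, x ∈ H [] ∧ ∀ t, x ∉ H t \ ⋃ k, H (t ++ [k]) := by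
    have h1 : ∀ᵐ x ∂μ, ∀ t : List ℕ, x ∉ H t \ ⋃ k, H (t ++ [k]) := by
      rw [ae_all_iff]
      intro t
      exact measure_eq_zero_iff_ae_notMem.1 (hN t)
    have hAr : A [] = range h := by
      ext x
      constructor
      · rintro ⟨w, _, hw⟩
        exact ⟨w, hw⟩
      · rintro ⟨w, hw⟩
        exact ⟨w, rfl, hw⟩
    filter_upwards [hr, h1] with x hx hx1
    refine ⟨?_, hx1⟩
    show x ∈ toMeasurable μ (A []) ∩ closure (A [])
    rw [hAr]
    exact hx
  have hp : ∀ (p : List ℕ × X), ∃ k : ℕ, p.2 ∈ H (p.1 ++ [k]) ∨ ∀ k', p.2 ∉ H (p.1 ++ [k']) := by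
    intro p
    by_cases hk : ∃ k, p.2 ∈ H (p.1 ++ [k])
    · obtain ⟨k, hk⟩ := hk
      exact ⟨k, Or.inl hk⟩
    · exact ⟨0, Or.inr (fun k' hk' => hk ⟨k', hk'⟩)⟩
  let kk : List ℕ × X → ℕ := fun p => Nat.find (hp p)
  let _ : MeasurableSpace (List ℕ) := ⊤
  have hkk : Measurable kk := by
    refine measurable_from_prod_countable_right (fun t => ?_)
    show Measurable (fun x => Nat.find (hp (t, x)))
    refine measurable_find (fun x => hp (t, x)) (fun k => ?_)
    have hA1 : MeasurableSet {x | x ∈ H (t ++ [k])} := hHm _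
    have hA2 : MeasurableSet {x | ∀ k', x ∉ H (t ++ [k'])} := by
      have : {x | ∀ k', x ∉ H (t ++ [k'])} = ⋂ k', (H (t ++ [k']))ᶜ := by
        ext x; simp
      rw [this]
      exact MeasurableSet.iInter fun k' => (hHm _).compl
    exact hA1.union hA2
  let P : ℕ → X → List ℕ := fun j => Nat.rec (fun _ => []) (fun _ f x => f x ++ [kk (f x, x)]) j
  have hPs : ∀ j x, P (j + 1) x = P j x ++ [kk (P j x, x)] := fun j x => rfl
  have hPm : ∀ j, Measurable (P j) := by
    intro j
    induction j with
    | zero => exact measurable_const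
    | succ j ih =>
      have h1 : Measurable (fun x => (P j x, kk (P j x, x))) :=
        ih.prodMk (hkk.comp (ih.prodMk measurable_id))
      have h2 : Measurable (fun q : List ℕ × ℕ => q.1 ++ [q.2]) := by
        refine measurable_from_prod_countable_right (fun t => ?_)
        exact measurable_from_top
      exact h2.comp h1
  let s : X → ℕ → ℕ := fun x j => kk (P j x, x)
  have hPtk : ∀ x j, P j x = selTk (s x) j := by
    intro x j
    induction j with
    | zero => rfl
    | succ j ih => rw [hPs]; show _ = selTk (s x) j ++ [s x j]; rw [← ih]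
  refine ⟨s, ?_, ?_⟩
  · exact measurable_pi_lambda _ fun j => hkk.comp ((hPm j).prodMk measurable_id)
  · filter_upwards [hgood] with x hx
    obtain ⟨hx0, hx1⟩ := hx
    have hmem : ∀ j, x ∈ H (P j x) := by
      intro j
      induction j with
      | zero => exact hx0
      | succ j ih =>
        have h1 := hx1 (P j x)
        have h2 : x ∈ ⋃ k, H (P j x ++ [k]) := by
          by_contra h3
          exact h1 ⟨ih, h3⟩
        obtain ⟨k, hk⟩ := mem_iUnion.1 h2
        have h4 := Nat.find_spec (hp (P j x, x))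
        rw [hPs]
        rcases h4 with h4 | h4
        · exact h4
        · exact absurd hk (h4 k)
    by_contra hne
    have hd : 0 < dist x (h (s x)) := dist_pos.2 (fun e => hne e.symm)
    set ε := dist x (h (s x)) / 2 with hε
    have hε0 : 0 < ε := by positivity
    have hU : IsOpen (h ⁻¹' Metric.ball (h (s x)) ε) := Metric.isOpen_ball.preimage hc
    have hsU : s x ∈ h ⁻¹' Metric.ball (h (s x)) ε := by
      show h (s x) ∈ Metric.ball (h (s x)) ε
      exact Metric.mem_ball_self hε0
    obtain ⟨c, ⟨y, n, rfl⟩, hyc, hcU⟩ :=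
      (PiNat.isTopologicalBasis_cylinders (fun _ : ℕ => ℕ)).exists_subset_of_mem_open hsU hU
    have hxn := hmem n
    have hxc : x ∈ closure (A (P n x)) := hxn.2
    have hsub : A (P n x) ⊆ Metric.closedBall (h (s x)) ε := by
      rintro z ⟨w, hw, rfl⟩
      have hw' : selTk w (P n x).length = P n x := hw
      rw [hPtk, selTk_length] at hw'
      have h5 := selTk_eq_mem w (s x) n hw'
      have h6 : w ∈ PiNat.cylinder y n := by
        rw [PiNat.mem_cylinder_iff]
        intro i hi
        rw [h5 i hi]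
        exact PiNat.mem_cylinder_iff.1 hyc i hi
      exact Metric.ball_subset_closedBall (hcU h6)
    have h7 : closure (A (P n x)) ⊆ Metric.closedBall (h (s x)) ε :=
      closure_minimal hsub Metric.isClosed_closedBall
    have h8 : dist x (h (s x)) ≤ ε := h7 hxc
    linarith

theorem sel2 {W X Z : Type*} [MeasurableSpace W] [MeasurableSpace X] [StandardBorelSpace X]
    [MeasurableSpace Z] [StandardBorelSpace Z] [Nonempty Z] (P : Measure W) [IsFiniteMeasure P]
    (f : W → X) (hf : Measurable f) (q : Z → X) (hq : Measurable q)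
    (hr : ∀ᵐ ω ∂P, f ω ∈ range q) :
    ∃ s : X → Z, Measurable s ∧ ∀ᵐ ω ∂P, q (s (f ω)) = f ω := by
  obtain ⟨τX, hbX, hpX⟩ := StandardBorelSpace.polish (α := X)
  obtain ⟨τZ, hbZ, hpZ⟩ := StandardBorelSpace.polish (α := Z)
  let _ : MetricSpace X := TopologicalSpace.upgradeIsCompletelyMetrizable X |>.toMetricSpace
  obtain ⟨t', hle, hqc, hp'⟩ := hq.exists_continuous
  have hbor : @borel Z t' = @borel Z τZ := (borel_eq_borel_of_le hp' hpZ hle)
  have hb' : @BorelSpace Z t' _ := @BorelSpace.mk Z t' _ (by rw [hbor]; exact hbZ.measurable_eq)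
  obtain ⟨g, hg, hgs⟩ := @PolishSpace.exists_nat_nat_continuous_surjective Z t' hp' _
  have hgm : Measurable g := @Continuous.measurable _ _ _ _ _ t' _ hb' g hg
  have hcomp : Continuous (q ∘ g) := @Continuous.comp _ _ _ _ t' _ g q hqc hg
  have hfin : IsFiniteMeasure (Measure.map f P) := inferInstance
  obtain ⟨s, hs, hs'⟩ := sel_cont2 (Measure.map f P) (q ∘ g) hcomp (by
    have hms : MeasurableSet (toMeasurable (Measure.map f P) (range (q ∘ g)) ∩
        closure (range (q ∘ g))) :=
      (measurableSet_toMeasurable _ _).inter isClosed_closure.measurableSet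
    refine (ae_map_iff hf.aemeasurable hms).2 ?_
    filter_upwards [hr] with ω hω
    have h1 : f ω ∈ range (q ∘ g) := by
      rw [hgs.range_comp]
      exact hω
    exact ⟨subset_toMeasurable _ _ h1, subset_closure h1⟩)
  exact ⟨g ∘ s, hgm.comp hs, ae_of_ae_map hf.aemeasurable hs'⟩

end

end RB57
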