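import Pool.Agent.RB57.Defs

/-!
# RB57/Supp : measurable sets depend on countably many coordinates

`exists_supp`: the sets `D ⊆ Om K × Z` of the form `{p | (A.restrict p.1, p.2) ∈ D0}` with `A`
countable and `D0` measurable form a σ-algebra (for a sequence `A n`, `D0 n` take the union `A` and the
preimages of `D0 n` under the restriction maps `(A → C) × Z → (A n → C) × Z`), which contains the
sets `{p | p.1 k ∈ t}` (`A = {k}`) and `{p | p.2 ∈ t}`; the product σ-algebra is generated by them.
(E.g. show that `Prod.fst` and `Prod.snd` are measurable for this σ-algebra: the product σ-algebra is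
`comap fst ⊔ comap snd`, and the one of `Om K` is `⨆ k, comap (eval k)`.)
-/

namespace RB57

open scoped ENNReal Cardinal
open MeasureTheory TopologicalSpace MBS

noncomputable section

/-- The support can be enlarged. -/
theorem supp_mono {K Z : Type} [MeasurableSpace Z] {D : Set (Om K × Z)} {A B : Set K}
    (hAB : A ⊆ B) (h : ∃ D0 : Set ((A → C) × Z),
      MeasurableSet D0 ∧ ∀ p : Om K × Z, p ∈ D ↔ ((fun k : A => p.1 k), p.2) ∈ D0) :
    ∃ D0 : Set ((B → C) × Z),
      MeasurableSet D0 ∧ ∀ p : Om K × Z, p ∈ D ↔ ((fun k : B => p.1 k), p.2) ∈ D0 := by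
  obtain ⟨D0, hD0, h⟩ := h
  let r : (B → C) × Z → (A → C) × Z := fun q => ((fun a : A => q.1 ⟨a, hAB a.2⟩), q.2)
  have hr : Measurable r :=
    (measurable_pi_lambda _ fun a => (measurable_pi_apply _).comp measurable_fst).prodMk
      measurable_snd
  exact ⟨r ⁻¹' D0, hr hD0, fun p => h p⟩

/-- the σ-algebra of the sets with countable support -/
def suppMS (K Z : Type) [MeasurableSpace Z] : MeasurableSpace (Om K × Z) where
  MeasurableSet' D := ∃ A : Set K, A.Countable ∧ ∃ D0 : Set ((A → C) × Z),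
      MeasurableSet D0 ∧ ∀ p : Om K × Z, p ∈ D ↔ ((fun k : A => p.1 k), p.2) ∈ D0
  measurableSet_empty := ⟨∅, Set.countable_empty, ∅, MeasurableSet.empty, fun p => by simp⟩
  measurableSet_compl := fun _ ⟨A, hA, D0, h0, h⟩ =>
    ⟨A, hA, D0ᶜ, h0.compl, fun p => not_congr (h p)⟩
  measurableSet_iUnion := fun f hf => by
    choose A hA hD using hf
    have hsub : ∀ n, A n ⊆ ⋃ n, A n := fun n => Set.subset_iUnion A n
    have h2 := fun n => supp_mono (hsub n) (hD n)
    choose D0 h0 h using h2
    refine ⟨⋃ n, A n, Set.countable_iUnion hA, ⋃ n, D0 n, MeasurableSet.iUnion h0, fun p => ?_⟩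
    simp only [Set.mem_iUnion]
    exact exists_congr fun n => h n p

theorem exists_supp {K Z : Type} [MeasurableSpace Z] (D : Set (Om K × Z))
    (hD : MeasurableSet D) : ∃ A : Set K, A.Countable ∧ ∃ D0 : Set ((A → C) × Z),
      MeasurableSet D0 ∧ ∀ p : Om K × Z, p ∈ D ↔ ((fun k : A => p.1 k), p.2) ∈ D0 := by
  have hle : (inferInstance : MeasurableSpace (Om K × Z)) ≤ suppMS K Z := by
    refine sup_le ?_ ?_
    · rw [← measurable_iff_comap_le]
      refine @measurable_pi_lambda _ _ _ (suppMS K Z) _ _ fun k => ?_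
      intro t ht
      refine ⟨{k}, Set.countable_singleton k, {q | q.1 ⟨k, rfl⟩ ∈ t}, ?_, fun p => Iff.rfl⟩
      exact ((measurable_pi_apply (⟨k, rfl⟩ : ({k} : Set K))).comp measurable_fst) ht
    · rw [← measurable_iff_comap_le]
      intro t ht
      exact ⟨∅, Set.countable_empty, {q | q.2 ∈ t}, measurable_snd ht, fun p => Iff.rfl⟩
  exact hle D hD

/-- the same for subsets of `Om K` -/
theorem exists_supp' {K : Type} (D : Set (Om K)) (hD : MeasurableSet D) :
    ∃ A : Set K, A.Countable ∧ ∀ ω ω' : Om K, (∀ k ∈ A, ω k = ω' k) → (ω ∈ D ↔ ω' ∈ D) := by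
  obtain ⟨A, hA, D0, _, h⟩ := exists_supp (Z := Unit) {p : Om K × Unit | p.1 ∈ D}
    (measurable_fst hD)
  refine ⟨A, hA, fun ω ω' hω => ?_⟩
  have h1 := h (ω, ())
  have h2 := h (ω', ())
  have e : (fun k : A => ω k) = fun k : A => ω' k := funext fun k => hω k k.2
  simp only [Set.mem_ofPred_eq] at h1 h2
  rw [h1, h2, e]

end

end RB57
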