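import Pool.Agent.RB57.Upd
import Pool.Agent.RB57.Supp
import Pool.Agent.RB57.Sel2
import Pool.Agent.MBS.Main

/-!
# RB57/Std : the spectra stay nonstandard in the random real model

`no_rstd_abs`. Suppose `RStd E E0 θ`. `E0` and all the sets `{p | θ p n = true}` depend on the coordinates in a
countable set `A` only (`exists_supp`, `exists_supp'`); `K` is uncountable, so there are `k ≠ k'` outside `A`. Let
`ee : C → Y` be measure preserving (`hee`; in the application a reindexing of the cube), `N ω = I (ee (ω k))`,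
`N' ω = I (ee (ω k'))`. For `g : G`, `RStd.emb` for `f ω = I (g • ee (ω k))` and `N`, and `hinv`: for a.e. `ω ∈ E0`:
`θ (ω, I (g • ee (ω k))) = θ (ω, I (ee (ω k)))`. By `mp_upd` this is: for a.e. `(ω, c)`, `ω ∈ E0`:
`θ (ω, I (g • ee c)) = θ (ω, I (ee c))` (the coordinate `k` is irrelevant for `θ` and `E0`), so for
a.e. `ω ∈ E0`, for a.e. `y`, for all `g` (`G` countable): `θ (ω, I (g • y)) = θ (ω, I y)`. By ergodicity (`herg`, applied to
`{y | θ (ω, I y) n = true}`) `y ↦ θ (ω, I y)` is a.e. constant. Hence `θ (ω, I (ee c)) = θ (ω, I (ee c'))` for a.e. `(ω, c, c')`,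
`ω ∈ E0`, i.e. (`mp_upd` twice) `θ (ω, N ω) = θ (ω, N' ω)` a.e. on `E0`, so by `RStd.emb` `E (N ω) (N' ω)` a.e. on `E0`, i.e.
`E (I (ee c)) (I (ee c'))` for a.e. `(c, c')` (as `P K E0 ≠ 0`): contradiction to `hnull`.
(Measurability: all the sets are preimages of measurable sets under measurable maps; use `mE`.)

`no_rstd_of`: `Y = Cube I`, `m = μc I`, `G = LampG I H`, `I = Ind e d`; `ee c = c ∘ (equivalence I ≃ ℕ)`
(`Measure.infinitePi_map_piCongrLeft`); `hinv` = `ind_inv`, `herg` = `erg`, `hnull`: as in `null_class` (Main).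
-/

namespace RB57

open scoped ENNReal Cardinal
open MeasureTheory TopologicalSpace MBS

noncomputable section

/-- change a coordinate in an almost sure statement -/
private theorem ae_upd {K : Type} (k : K) {Q : Om K → Prop} (h : ∀ᵐ ω ∂(P K), Q ω) :
    ∀ᵐ ω ∂(P K), ∀ᵐ c ∂μC, Q (upd ω k c) :=
  Measure.ae_ae_of_ae_prod ((mp_upd k).quasiMeasurePreserving.ae h)

theorem no_rstd_abs {K X Y G : Type} [Uncountable K] [MeasurableSpace X] [MeasurableSpace Y]
    [Group G] [Countable G] [MulAction G Y] {E : X → X → Prop} (hE : Equivalence E)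
    (mE : MeasurableSet {p : X × X | E p.1 p.2}) (m : Measure Y) [IsProbabilityMeasure m]
    (hG : ∀ g : G, MeasurePreserving (fun y : Y => g • y) m m)
    (herg : ∀ V : Set Y, MeasurableSet V → (∀ g : G, ∀ᵐ y ∂m, (g • y ∈ V ↔ y ∈ V)) →
      m V = 0 ∨ m Vᶜ = 0)
    {I : Y → X} (hI : Measurable I) (hinv : ∀ g : G, ∀ᵐ y ∂m, E (I (g • y)) (I y))
    (hnull : ∀ x, m {y | E (I y) x} = 0) {ee : C → Y} (hee : MeasurePreserving ee μC m)
    {E0 : Set (Om K)} (hE0 : MeasurableSet E0) (h0 : P K E0 ≠ 0) (θ : Om K × X → C) :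
    ¬ RStd E E0 θ := by
  intro hR
  have hθ := hR.meas
  -- the countable support
  have hT : ∀ n : ℕ, MeasurableSet {p : Om K × X | θ p n = true} := fun n =>
    ((measurable_pi_apply n).comp hθ) (measurableSet_singleton true)
  choose A hA D0 hD0 hD using fun n => exists_supp _ (hT n)
  obtain ⟨A', hA', hE0'⟩ := exists_supp' E0 hE0
  have hB : ((⋃ n, A n) ∪ A').Countable := (Set.countable_iUnion hA).union hA'
  have hθA : ∀ (ω ω' : Om K) (x : X), (∀ k ∈ (⋃ n, A n) ∪ A', ω k = ω' k) →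
      θ (ω, x) = θ (ω', x) := by
    intro ω ω' x h
    funext n
    have h1 := hD n (ω, x)
    have h2 := hD n (ω', x)
    have e : (fun k : A n => (ω, x).1 k) = (fun k : A n => (ω', x).1 k) := by
      funext k
      exact h k (Or.inl (Set.mem_iUnion.2 ⟨n, k.2⟩))
    rw [e] at h1
    have h3 : θ (ω, x) n = true ↔ θ (ω', x) n = true := h1.trans h2.symm
    exact Bool.eq_iff_iff.2 h3
  have hE0A : ∀ (ω ω' : Om K), (∀ k ∈ (⋃ n, A n) ∪ A', ω k = ω' k) → (ω ∈ E0 ↔ ω' ∈ E0) :=
    fun ω ω' h => hE0' ω ω' fun k hk => h k (Or.inr hk)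
  obtain ⟨k, hk⟩ : ∃ k, k ∉ (⋃ n, A n) ∪ A' := by
    by_contra hne
    push Not at hne
    exact Set.not_countable_univ (α := K) (hB.mono fun x _ => hne x)
  obtain ⟨k', hk'⟩ : ∃ k', k' ∉ ((⋃ n, A n) ∪ A') ∪ {k} := by
    by_contra hne
    push Not at hne
    exact Set.not_countable_univ (α := K)
      ((hB.union (Set.countable_singleton k)).mono fun x _ => hne x)
  have hk'A : k' ∉ (⋃ n, A n) ∪ A' := fun h => hk' (Or.inl h)
  have hkk' : k' ≠ k := fun h => hk' (Or.inr h)
  have hag : ∀ (j : K), j ∉ (⋃ n, A n) ∪ A' → ∀ (ω : Om K) (c : C),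
      ∀ l ∈ (⋃ n, A n) ∪ A', upd ω j c l = ω l := by
    intro j hj ω c l hl
    exact upd_ne ω (fun h => hj (by rw [← h]; exact hl)) c
  have hev : ∀ j : K, Measurable (fun ω : Om K => ω j) := fun j => measurable_pi_apply j
  -- almost sure invariance
  have s1 : ∀ g : G, ∀ᵐ ω ∂(P K), ∀ᵐ c ∂μC, ω ∈ E0 →
      θ (ω, I (g • ee c)) = θ (ω, I (ee c)) := by
    intro g
    have h1 := hR.emb (fun ω => I (g • ee (ω k))) (fun ω => I (ee (ω k)))
      (hI.comp ((hG g).measurable.comp (hee.measurable.comp (hev k))))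
      (hI.comp (hee.measurable.comp (hev k)))
    have h2 : ∀ᵐ c ∂μC, E (I (g • ee c)) (I (ee c)) := hee.quasiMeasurePreserving.ae (hinv g)
    filter_upwards [ae_upd k h1] with ω hω
    filter_upwards [hω, h2] with c hc hc2 hω0
    have h3 := hc ((hE0A _ _ (hag k hk ω c)).2 hω0)
    simp only [upd_same] at h3
    have h4 := h3.1 hc2
    rw [hθA _ ω _ (hag k hk ω c), hθA _ ω _ (hag k hk ω c)] at h4
    exact h4
  have s2 : ∀ᵐ ω ∂(P K), ω ∈ E0 → ∃ x0 : C, ∀ᵐ c ∂μC, θ (ω, I (ee c)) = x0 := by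
    filter_upwards [ae_all_iff.2 s1] with ω hω hω0
    have hθω : Measurable (fun y : Y => θ (ω, I y)) :=
      hθ.comp (measurable_prodMk_left.comp hI)
    have hV : ∀ n : ℕ, MeasurableSet {y : Y | θ (ω, I y) n = true} := fun n =>
      ((measurable_pi_apply n).comp hθω) (measurableSet_singleton true)
    have hVinv : ∀ n : ℕ, m {y : Y | θ (ω, I y) n = true} = 0 ∨
        m {y : Y | θ (ω, I y) n = true}ᶜ = 0 := by
      intro n
      refine herg _ (hV n) (fun g => ?_)
      have hms : MeasurableSet {y : Y | θ (ω, I (g • y)) = θ (ω, I y)} :=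
        measurableSet_eq_fun (hθω.comp (hG g).measurable) hθω
      have h1 : ∀ᵐ y ∂m, θ (ω, I (g • y)) = θ (ω, I y) := by
        rw [← hee.map_eq, ae_map_iff hee.measurable.aemeasurable hms]
        filter_upwards [hω g] with c hc
        exact hc hω0
      filter_upwards [h1] with y hy
      show θ (ω, I (g • y)) n = true ↔ θ (ω, I y) n = true
      rw [hy]
    classical
    refine ⟨fun n => decide (m {y : Y | θ (ω, I y) n = true}ᶜ = 0), ?_⟩
    have h2 : ∀ n : ℕ, ∀ᵐ y ∂m, θ (ω, I y) n =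
        decide (m {y : Y | θ (ω, I y) n = true}ᶜ = 0) := by
      intro n
      by_cases hc : m {y : Y | θ (ω, I y) n = true}ᶜ = 0
      · have h3 : ∀ᵐ y ∂m, y ∈ {y : Y | θ (ω, I y) n = true} := hc
        filter_upwards [h3] with y hy
        rw [decide_eq_true hc]
        exact hy
      · have h3 := (hVinv n).resolve_right hc
        have h4 : ∀ᵐ y ∂m, y ∉ {y : Y | θ (ω, I y) n = true} := measure_eq_zero_iff_ae_notMem.1 h3
        filter_upwards [h4] with y hy
        rw [decide_eq_false hc]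
        exact Bool.eq_false_iff.2 hy
    have h5 : ∀ᵐ y ∂m, θ (ω, I y) = fun n => decide (m {y : Y | θ (ω, I y) n = true}ᶜ = 0) := by
      filter_upwards [ae_all_iff.2 h2] with y hy
      funext n
      exact hy n
    exact hee.quasiMeasurePreserving.ae h5
  -- two independent points
  have s3 : ∀ᵐ ω ∂(P K), ∀ᵐ c ∂μC, ∀ᵐ c' ∂μC, ω ∈ E0 →
      (E (I (ee c)) (I (ee c')) ↔ θ (ω, I (ee c)) = θ (ω, I (ee c'))) := by
    have h1 := hR.emb (fun ω => I (ee (ω k))) (fun ω => I (ee (ω k')))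
      (hI.comp (hee.measurable.comp (hev k))) (hI.comp (hee.measurable.comp (hev k')))
    filter_upwards [ae_upd k (ae_upd k' h1)] with ω hω
    filter_upwards [hω] with c hc
    filter_upwards [hc] with c' hc' hω0
    have hag2 : ∀ l ∈ (⋃ n, A n) ∪ A', upd (upd ω k c) k' c' l = ω l := by
      intro l hl
      rw [hag k' hk'A _ c' l hl, hag k hk ω c l hl]
    have h2 := hc' ((hE0A _ _ hag2).2 hω0)
    have e1 : upd (upd ω k c) k' c' k = c := by
      rw [upd_ne _ (Ne.symm hkk'), upd_same]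
    have e2 : upd (upd ω k c) k' c' k' = c' := upd_same _ _ _
    rw [e1, e2, hθA _ ω _ hag2, hθA _ ω _ hag2] at h2
    exact h2
  have s4 : ∀ᵐ ω ∂(P K), ω ∈ E0 → ∀ᵐ c ∂μC, ∀ᵐ c' ∂μC, E (I (ee c)) (I (ee c')) := by
    filter_upwards [s2, s3] with ω h2 h3 hω0
    obtain ⟨x0, hx0⟩ := h2 hω0
    filter_upwards [h3, hx0] with c hc hc0
    filter_upwards [hc, hx0] with c' hc' hc0'
    exact (hc' hω0).2 (hc0.trans hc0'.symm)
  have s5 : ∃ ω : Om K, ω ∈ E0 ∧ (ω ∈ E0 → ∀ᵐ c ∂μC, ∀ᵐ c' ∂μC, E (I (ee c)) (I (ee c'))) := by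
    by_contra hne
    apply h0
    rw [measure_eq_zero_iff_ae_notMem]
    filter_upwards [s4] with ω hω hω0
    exact hne ⟨ω, hω0, hω⟩
  obtain ⟨ω, hω0, hω⟩ := s5
  obtain ⟨c, hc⟩ := (hω hω0).exists
  have h6 : ∀ᵐ y ∂m, y ∉ {y | E (I y) (I (ee c))} :=
    measure_eq_zero_iff_ae_notMem.1 (hnull (I (ee c)))
  have h7 : ∀ᵐ c' ∂μC, ee c' ∉ {y | E (I y) (I (ee c))} := hee.quasiMeasurePreserving.ae h6
  obtain ⟨c', h8, h9⟩ := (hc.and h7).exists
  exact h9 (hE.symm h8)

/-- the classes are null -/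
private theorem null_class' {I H : Type} [Group H] [MulAction H I] [Countable I] [Countable H]
    [Infinite I] (hfree : ∀ h : H, h ≠ 1 → ∀ i : I, h • i ≠ i) (e : LampG I H ≃ Idx none)
    (d : Irr (Red (LampG I H) (Cube I))) (σ : Irr (Red (LampG I H) (Cube I))) :
    μc I {x | UEquiv (Ind e d x) σ} = 0 := by
  have hfr : μc I (FreePts (LampG I H) (Cube I))ᶜ = 0 := ae_free I H hfree
  by_cases h : ∃ x0 ∈ FreePts (LampG I H) (Cube I), UEquiv (Ind e d x0) σ
  · obtain ⟨x0, hx0, hx0σ⟩ := h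
    refine measure_mono_null (t := (⋃ g : LampG I H, {g • x0}) ∪ (FreePts (LampG I H) (Cube I))ᶜ) ?_
      (measure_union_null (measure_iUnion_null fun g => noAtoms I _) hfr)
    intro x hx
    by_cases hxf : x ∈ FreePts (LampG I H) (Cube I)
    · left
      obtain ⟨g, hg⟩ := (ind_uequiv_iff e d x0 x hx0 hxf).1 (hx0σ.trans (UEquiv.symm hx))
      exact Set.mem_iUnion.2 ⟨g, hg.symm⟩
    · exact Or.inr hxf
  · refine measure_mono_null (t := (FreePts (LampG I H) (Cube I))ᶜ) ?_ hfr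
    intro x hx hxf
    exact h ⟨x, hxf, hx⟩

/-- reindexing the cube -/
private theorem mp_reindex {I : Type} (e : I ≃ ℕ) :
    MeasurePreserving (fun c : C => (fun i => c (e i) : Cube I)) μC (μc I) := by
  have hm : Measurable (fun c : C => (fun i => c (e i) : Cube I)) :=
    measurable_pi_lambda _ fun i => measurable_pi_apply (e i)
  refine ⟨hm, ?_⟩
  have h := Measure.infinitePi_map_piCongrLeft (X := fun _ : I => Bool) (fun _ : I => coin) e.symm
  have e2 : (fun c : C => (fun i => c (e i) : Cube I)) =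
      (MeasurableEquiv.piCongrLeft (fun _ : I => Bool) e.symm : C → Cube I) := by
    funext c i
    have h1 := MeasurableEquiv.coe_piCongrLeft (π := fun _ : I => Bool) e.symm
    rw [h1]
    obtain ⟨n, rfl⟩ := e.symm.surjective i
    rw [Equiv.piCongrLeft_apply_apply, Equiv.apply_symm_apply]
  rw [e2]
  exact h

theorem no_rstd_of {I H : Type} [Group H] [MulAction H I] [Countable I] [Countable H]
    [Infinite I] (hfree : ∀ h : H, h ≠ 1 → ∀ i : I, h • i ≠ i)
    (mE : MeasurableSet {p : Irr (Red (LampG I H) (Cube I)) × Irr (Red (LampG I H) (Cube I)) |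
      UEquiv p.1 p.2}) {K : Type} [Uncountable K] {E0 : Set (Om K)} (hE0 : MeasurableSet E0)
    (h0 : P K E0 ≠ 0) (θ : Om K × Irr (Red (LampG I H) (Cube I)) → C) :
    ¬ RStd (UEquiv (A := Red (LampG I H) (Cube I))) E0 θ := by
  obtain ⟨e⟩ := exists_enum I H
  obtain ⟨d⟩ := exists_irr (I := I) (H := H) hfree
  obtain ⟨e'⟩ := nonempty_equiv_of_countable (α := I) (β := ℕ)
  exact no_rstd_abs (G := LampG I H) ⟨fun σ => UEquiv.refl σ, UEquiv.symm, UEquiv.trans⟩ mE (μc I)
    (fun g => mp_lamp I H g) (erg I H) (ind_measurable e d) (ind_inv hfree e d)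
    (null_class' hfree e d) (mp_reindex e') hE0 h0 θ

end

end RB57
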