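import Pool.Agent.RB57.Defs

/-!
# RB57/Fib : saturations of the fibres are Borel (Lusin-Souslin)

The set `G = {((c, x), y) | y ∈ Y1 ∩ V, w y = c, E (I y) x}` is a measurable subset of the standard Borel space
`(C × X) × Y`. On `G` the projection `((c, x), y) ↦ (c, x)` is injective: if `E (I y) x`, `E (I y') x` and
`w y = c = w y'`, then `E (I y) (I y')`, so `y = y'` by `ht`. `MeasurableSet.image_of_measurable_injOn`.
-/

namespace RB57

open scoped ENNReal Cardinal
open MeasureTheory TopologicalSpace MBS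

noncomputable section

theorem measurableSet_fib {X Y : Type} [MeasurableSpace X] [StandardBorelSpace X]
    [MeasurableSpace Y] [StandardBorelSpace Y] {E : X → X → Prop} (hE : Equivalence E)
    (mE : MeasurableSet {p : X × X | E p.1 p.2}) {I : Y → X} (hI : Measurable I) {w : Y → C}
    (hw : Measurable w) {Y1 : Set Y} (hY1 : MeasurableSet Y1)
    (ht : ∀ y ∈ Y1, ∀ y' ∈ Y1, w y = w y' → E (I y) (I y') → y = y') {V : Set Y}
    (hV : MeasurableSet V) :
    MeasurableSet {p : C × X | ∃ y ∈ Y1 ∩ V, w y = p.1 ∧ E (I y) p.2} := by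
  let G : Set ((C × X) × Y) := {q | q.2 ∈ Y1 ∩ V ∧ w q.2 = q.1.1 ∧ E (I q.2) q.1.2}
  have hG : MeasurableSet G := by
    have h1 : MeasurableSet {q : (C × X) × Y | q.2 ∈ Y1 ∩ V} :=
      measurable_snd (hY1.inter hV)
    have h2 : MeasurableSet {q : (C × X) × Y | w q.2 = q.1.1} :=
      measurableSet_eq_fun (hw.comp measurable_snd) (measurable_fst.comp measurable_fst)
    have h3 : MeasurableSet {q : (C × X) × Y | E (I q.2) q.1.2} := by
      have h4 : Measurable (fun q : (C × X) × Y => (I q.2, q.1.2)) :=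
        (hI.comp measurable_snd).prodMk (measurable_snd.comp measurable_fst)
      exact h4 mE
    exact h1.inter (h2.inter h3)
  have hinj : Set.InjOn (Prod.fst : (C × X) × Y → C × X) G := by
    rintro ⟨⟨c, x⟩, y⟩ ⟨⟨hy, _⟩, hw1, he1⟩ ⟨⟨c', x'⟩, y'⟩ ⟨⟨hy', _⟩, hw2, he2⟩ h
    simp only [Prod.mk.injEq] at h
    obtain ⟨rfl, rfl⟩ := h
    have : y = y' := ht y hy y' hy' (hw1.trans hw2.symm) (hE.trans he1 (hE.symm he2))
    rw [this]
  have h5 := hG.image_of_measurable_injOn measurable_fst hinj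
  have e : {p : C × X | ∃ y ∈ Y1 ∩ V, w y = p.1 ∧ E (I y) p.2} = Prod.fst '' G := by
    ext p
    constructor
    · rintro ⟨y, hy, hw1, he⟩
      exact ⟨(p, y), ⟨hy, hw1, he⟩, rfl⟩
    · rintro ⟨⟨p', y⟩, ⟨hy, hw1, he⟩, rfl⟩
      exact ⟨y, hy, hw1, he⟩
  rw [e]
  exact h5

end

end RB57
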