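import Mathlib

/-!
# RB57/Free : free pairs

Proof. `U0` a subset of `K` with `#U0 = ℵ_1`. The union of `U0` and the `A i`, `i ∈ U0`, has cardinality `≤ ℵ_1`, so
there is `j` outside (`ℵ_2 ≤ #K`). `A' j` is countable and `U0` uncountable, so there is `i ∈ U0` with
`i ∉ A' j`. Then `j ∉ A i`, and `i ≠ j` because `j ∉ U0`.
-/

namespace RB57

open scoped Cardinal

theorem uncountable_of {K : Type} (hK : ℵ_ 2 ≤ Cardinal.mk K) : Uncountable K := by
  rw [← Cardinal.aleph0_lt_mk_iff]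
  refine lt_of_lt_of_le ?_ hK
  rw [← Cardinal.aleph_zero]
  exact Cardinal.aleph_lt_aleph.2 (by norm_num)

theorem exists_free_pair {K : Type} (hK : ℵ_ 2 ≤ Cardinal.mk K) (A0 : Set K)
    (hA0 : A0.Countable) (A A' : K → Set K) (hA : ∀ i, (A i).Countable)
    (hA' : ∀ i, (A' i).Countable) :
    ∃ i j : K, i ≠ j ∧ i ∉ A0 ∧ j ∉ A0 ∧ i ∉ A' j ∧ j ∉ A i := by
  have h01 : ℵ₀ < ℵ_ 1 := by
    rw [← Cardinal.aleph_zero]
    exact Cardinal.aleph_lt_aleph.2 (by norm_num)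
  have h12 : ℵ_ 1 < ℵ_ 2 := Cardinal.aleph_lt_aleph.2 (by norm_num)
  -- `U0` of cardinality `ℵ_1`
  obtain ⟨U0, hU0⟩ : ∃ U0 : Set K, Cardinal.mk U0 = ℵ_ 1 :=
    Cardinal.le_mk_iff_exists_set.1 (h12.le.trans hK)
  let W : Set K := U0 ∪ A0 ∪ ⋃ i ∈ U0, A i
  have hW : Cardinal.mk W ≤ ℵ_ 1 := by
    have h1 : Cardinal.mk A0 ≤ ℵ_ 1 := (Cardinal.le_aleph0_iff_set_countable.2 hA0).trans h01.le
    have h2 : Cardinal.mk (⋃ i ∈ U0, A i : Set K) ≤ ℵ_ 1 := by
      rw [Set.biUnion_eq_iUnion]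
      refine (Cardinal.mk_iUnion_le _).trans ?_
      rw [hU0]
      refine Cardinal.mul_le_of_le h01.le le_rfl ?_
      exact ciSup_le' fun i => (Cardinal.le_aleph0_iff_set_countable.2 (hA i)).trans h01.le
    refine (Cardinal.mk_union_le _ _).trans ?_
    refine Cardinal.add_le_of_le h01.le ?_ h2
    refine (Cardinal.mk_union_le _ _).trans ?_
    exact Cardinal.add_le_of_le h01.le hU0.le h1
  obtain ⟨j, hj⟩ : ∃ j, j ∉ W := by
    by_contra h
    push Not at h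
    have h1 : W = Set.univ := Set.eq_univ_of_forall h
    rw [h1, Cardinal.mk_univ] at hW
    exact absurd (hK.trans hW) (not_le.2 h12)
  have hUn : ¬ (U0 ⊆ A' j ∪ A0) := by
    intro h
    have h1 : U0.Countable := ((hA' j).union hA0).mono h
    have h2 := Cardinal.le_aleph0_iff_set_countable.2 h1
    rw [hU0] at h2
    exact absurd h2 (not_le.2 h01)
  obtain ⟨i, hiU, hi⟩ := Set.not_subset.1 hUn
  refine ⟨i, j, ?_, fun h => hi (Or.inr h), fun h => hj (Or.inl (Or.inr h)),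
    fun h => hi (Or.inl h), fun h => hj (Or.inr (Set.mem_biUnion hiU h))⟩
  rintro rfl
  exact hj (Or.inl (Or.inl hiU))

end RB57
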