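import Pool.Agent.RB57.Sec
import Pool.Agent.RB57.Free

/-!
# RB57/Fin : the abstract theorem

See Defs, steps 3-5.
-/

namespace RB57

open scoped ENNReal Cardinal
open MeasureTheory TopologicalSpace MBS

noncomputable section

section aux

variable {K X X' Y : Type} [MeasurableSpace X] [MeasurableSpace X'] [MeasurableSpace Y]

theorem fresh [Uncountable K] (B : Set K) (hB : B.Countable) : ∃ k, k ∉ B := by
  by_contra h
  push Not at h
  have : (Set.univ : Set K).Countable := hB.mono fun x _ => h x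
  exact (not_countable (α := K)) (Set.countable_univ_iff.1 this)

/-- step 4: comparison of the two sections -/
theorem compare [Uncountable K] {E : X → X → Prop} {E' : X' → X' → Prop}
    (hE' : Equivalence E') {m : Measure Y} [IsProbabilityMeasure m] {I : Y → X}
    (hI : Measurable I) {S : Y → Y} (hS : MeasurePreserving S m m)
    (hSI : ∀ᵐ y ∂m, E (I (S y)) (I y)) {w w' z : Y → C} {L : C × C × C → Y}
    (t : Triple m (fun y => w (S y)) w' z L) {E0 : Set (Om K)}
    {Φ : (Om K → X) → (Om K → X')} (hΦ : RIso E E' E0 Φ) {i j : K} (hij : i ≠ j)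
    {A A' : Set K} {s s' : Om K → Y → X'} (hs : IsSec E' E0 Φ m I w i A s)
    (hs' : IsSec E' E0 Φ m I w' j A' s') (hiA' : i ∉ A') (hjA : j ∉ A) :
    ∀ᵐ p ∂((P K).prod m), p.1 ∈ E0 →
      E' (s (upd p.1 i (w (S p.2))) (S p.2)) (s' (upd p.1 j (w' p.2)) p.2) := by
  obtain ⟨k, hk⟩ := fresh (A ∪ A' ∪ {i, j})
    ((hs.ctb.union hs'.ctb).union ((Set.finite_singleton j).insert i).countable)
  have hkA : k ∉ A := fun h => hk (Or.inl (Or.inl h))
  have hkA' : k ∉ A' := fun h => hk (Or.inl (Or.inr h))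
  have hik : i ≠ k := fun h => hk (Or.inr (by simp [h]))
  have hjk : j ≠ k := fun h => hk (Or.inr (by simp [h]))
  have hmp := mp_tri (K := K) t hij hik hjk
  have hN : Measurable (nm L i j k : Om K → Y) := measurable_nm t.mL i j k
  have k1 := hs.key (fun ω => S (nm L i j k ω)) (hS.measurable.comp hN) (fun ω => t.r1 _)
    (lawOK_tri hS t (fun _ => rfl) hij hik hjk A hjA hkA)
  have e2 : (nm L i j k : Om K → Y) = nm (fun c => L (c.2.1, c.1, c.2.2)) j i k := rfl
  have k2 := hs'.key (nm L i j k) hN (fun ω => t.r2 _) (by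
    rw [e2]
    exact lawOK_tri (MeasurePreserving.id m) t.swap (fun _ => rfl) hij.symm hjk hik A' hiA' hkA')
  have k3 := hΦ.r1 (fun ω => I (S (nm L i j k ω))) (fun ω => I (nm L i j k ω))
    (hI.comp (hS.measurable.comp hN)) (hI.comp hN)
  have k1' := hmp.quasiMeasurePreserving.ae k1
  have k2' := hmp.quasiMeasurePreserving.ae k2
  have k3' := hmp.quasiMeasurePreserving.ae k3
  have k4' := (Measure.quasiMeasurePreserving_snd (μ := P K) (ν := m)).ae hSI
  filter_upwards [k1', k2', k3', k4'] with p h1 h2 h3 h4 hp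
  have e3 : nm L i j k (tri (fun y => w (S y)) w' z i j k p) = p.2 := nm_tri t hij hik hjk p
  have hE : tri (fun y => w (S y)) w' z i j k p ∈ E0 := by
    -- `E0` does not depend on `i`, `j`, `k`
    refine (hs.depE p.1 _ fun a ha => ?_).1 hp
    have hai : a ≠ i := ha.2
    have haj : a ≠ j := fun h => hjA (h ▸ ha.1)
    have hak : a ≠ k := fun h => hkA (h ▸ ha.1)
    rw [tri_of_ne hai haj hak]
  have g1 := h1 hE
  have g2 := h2 hE
  have g3 := h3 hE
  rw [e3] at g1 g2 g3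
  have d1 : s (tri (fun y => w (S y)) w' z i j k p) (S p.2) =
      s (upd p.1 i (w (S p.2))) (S p.2) := by
    apply hs.dep
    intro a ha
    have haj : a ≠ j := fun h => hjA (h ▸ ha)
    have hak : a ≠ k := fun h => hkA (h ▸ ha)
    by_cases hai : a = i
    · subst hai
      rw [(tri_apply hij hik hjk p).1, upd_same]
    · rw [tri_of_ne hai haj hak, upd_ne _ hai]
  have d2 : s' (tri (fun y => w (S y)) w' z i j k p) p.2 =
      s' (upd p.1 j (w' p.2)) p.2 := by
    apply hs'.dep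
    intro a ha
    have hai : a ≠ i := fun h => hiA' (h ▸ ha)
    have hak : a ≠ k := fun h => hkA' (h ▸ ha)
    by_cases haj : a = j
    · subst haj
      rw [(tri_apply hij hik hjk p).2.1, upd_same]
    · rw [tri_of_ne hai haj hak, upd_ne _ haj]
  rw [d1] at g1
  rw [d2] at g2
  exact hE'.trans g1 (hE'.trans (g3.1 h4) (hE'.symm g2))

theorem chain {α β : Type} [MeasurableSpace α] [MeasurableSpace β] {a : Measure α}
    {b : Measure β} [SFinite a] [SFinite b] {f : Om K × α → Om K} {g : Om K × β → Om K}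
    (hf : MeasurePreserving f ((P K).prod a) (P K)) (hg : MeasurePreserving g ((P K).prod b) (P K)) :
    MeasurePreserving (fun p : Om K × (α × β) => g (f (p.1, p.2.1), p.2.2))
      ((P K).prod (a.prod b)) (P K) := by
  have h1 : MeasurePreserving (MeasurableEquiv.prodAssoc (α := Om K) (β := α) (γ := β)).symm
      ((P K).prod (a.prod b)) (((P K).prod a).prod b) :=
    (measurePreserving_prodAssoc (P K) a b).symm
  have h2 := (hf.prod (MeasurePreserving.id b)).comp h1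
  exact hg.comp h2

instance : NullSingletonClass μC := ⟨fun x => noAtoms ℕ x⟩

/-- step 5: two independent points of the same fibre -/
theorem two_points [Uncountable K] {E : X → X → Prop} {E' : X' → X' → Prop}
    (hE' : Equivalence E')
    {m : Measure Y} [IsProbabilityMeasure m] {I : Y → X}
    (hI : Measurable I) {w w' z : Y → C} {L : C × C × C → Y}
    (t : Triple m w w' z L) {Y1 : Set Y} (hY1 : MeasurableSet Y1) (h1 : ∀ᵐ y ∂m, y ∈ Y1)
    (ht : ∀ y ∈ Y1, ∀ y' ∈ Y1, w y = w y' → E (I y) (I y') → y = y') {E0 : Set (Om K)}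
    {Φ : (Om K → X) → (Om K → X')} (hΦ : RIso E E' E0 Φ) {i : K}
    {A : Set K} {s : Om K → Y → X'} (hs : IsSec E' E0 Φ m I w i A s) :
    ∀ᵐ ω ∂(P K), ω ∈ E0 → ∀ᵐ q ∂(μC.prod ((μC.prod μC).prod (μC.prod μC))),
      ¬ E' (s (upd ω i q.1) (L (q.1, q.2.1))) (s (upd ω i q.1) (L (q.1, q.2.2))) := by
  have hAi : (A ∪ {i}).Countable := hs.ctb.union (Set.countable_singleton i)
  obtain ⟨k1, hk1⟩ := fresh (A ∪ {i}) hAi
  obtain ⟨k2, hk2⟩ := fresh (A ∪ {i} ∪ {k1}) (hAi.union (Set.countable_singleton k1))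
  obtain ⟨k3, hk3⟩ := fresh (A ∪ {i} ∪ {k1} ∪ {k2})
    ((hAi.union (Set.countable_singleton k1)).union (Set.countable_singleton k2))
  obtain ⟨k4, hk4⟩ := fresh (A ∪ {i} ∪ {k1} ∪ {k2} ∪ {k3})
    (((hAi.union (Set.countable_singleton k1)).union (Set.countable_singleton k2)).union
      (Set.countable_singleton k3))
  simp only [Set.mem_union, Set.mem_singleton_iff, not_or] at hk1 hk2 hk3 hk4
  obtain ⟨a1, i1⟩ := hk1
  obtain ⟨⟨a2, i2⟩, n21⟩ := hk2
  obtain ⟨⟨⟨a3, i3⟩, n31⟩, n32⟩ := hk3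
  obtain ⟨⟨⟨⟨a4, i4⟩, n41⟩, n42⟩, n43⟩ := hk4
  have hN1 : Measurable (nm L i k1 k2 : Om K → Y) := measurable_nm t.mL i k1 k2
  have hN2 : Measurable (nm L i k3 k4 : Om K → Y) := measurable_nm t.mL i k3 k4
  have l1 := lawOK_tri (K := K) (MeasurePreserving.id m) t (fun _ => rfl) (Ne.symm i1)
    (Ne.symm i2) (Ne.symm n21) A a1 a2
  have l2 := lawOK_tri (K := K) (MeasurePreserving.id m) t (fun _ => rfl) (Ne.symm i3)
    (Ne.symm i4) (Ne.symm n43) A a3 a4
  have key1 := hs.key (nm L i k1 k2) hN1 (fun ω => t.r1 _) l1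
  have key2 := hs.key (nm L i k3 k4) hN2 (fun ω => t.r1 _) l2
  have y1 : ∀ᵐ ω ∂(P K), nm L i k1 k2 ω ∈ Y1 := by
    refine l1 {p | p.2 ∈ Y1} (measurable_snd hY1) (fun _ _ _ _ => Iff.rfl) ?_
    exact (Measure.quasiMeasurePreserving_snd (μ := P K) (ν := m)).ae h1
  have y2 : ∀ᵐ ω ∂(P K), nm L i k3 k4 ω ∈ Y1 := by
    refine l2 {p | p.2 ∈ Y1} (measurable_snd hY1) (fun _ _ _ _ => Iff.rfl) ?_
    exact (Measure.quasiMeasurePreserving_snd (μ := P K) (ν := m)).ae h1
  have r := hΦ.r1 (fun ω => I (nm L i k1 k2 ω)) (fun ω => I (nm L i k3 k4 ω))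
    (hI.comp hN1) (hI.comp hN2)
  have main : ∀ᵐ ω ∂(P K), ω ∈ E0 → E' (s ω (nm L i k1 k2 ω)) (s ω (nm L i k3 k4 ω)) →
      nm L i k1 k2 ω = nm L i k3 k4 ω := by
    filter_upwards [key1, key2, y1, y2, r] with ω g1 g2 u1 u2 g3 hω he
    have e1 := hE'.trans (hE'.trans (hE'.symm (g1 hω)) he) (g2 hω)
    exact ht _ u1 _ u2 ((t.r1 (ω i, ω k1, ω k2)).trans (t.r1 (ω i, ω k3, ω k4)).symm)
      ((g3 hω).2 e1)
  have hmp := chain (mp_upd (K := K) i) (chain (chain (mp_upd (K := K) k1) (mp_upd k2))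
    (chain (mp_upd (K := K) k3) (mp_upd k4)))
  have main' := hmp.quasiMeasurePreserving.ae main
  have hdiag : ∀ᵐ q ∂(μC.prod ((μC.prod μC).prod (μC.prod μC))), q.2.1 ≠ q.2.2 := by
    have hd : ∀ᵐ r ∂((μC.prod μC).prod (μC.prod μC)), r.1 ≠ r.2 := by
      have hm : MeasurableSet {r : (C × C) × (C × C) | r.1 = r.2} :=
        measurableSet_eq_fun measurable_fst measurable_snd
      have : ((μC.prod μC).prod (μC.prod μC)) {r : (C × C) × (C × C) | r.1 = r.2} = 0 := by
        rw [Measure.measure_prod_null hm]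
        refine Filter.Eventually.of_forall fun u => ?_
        have e : (Prod.mk u ⁻¹' {r : (C × C) × (C × C) | r.1 = r.2}) = {u} := by
          ext v
          simp only [Set.mem_preimage, Set.mem_ofPred_eq, Set.mem_singleton_iff]
          exact eq_comm
        change (μC.prod μC) (Prod.mk u ⁻¹' {r : (C × C) × (C × C) | r.1 = r.2}) = 0
        rw [e]
        exact measure_singleton u
      rw [ae_iff]
      simpa using this
    exact (Measure.quasiMeasurePreserving_snd (μ := μC)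
      (ν := (μC.prod μC).prod (μC.prod μC))).ae hd
  have main'' := Measure.ae_ae_of_ae_prod main'
  filter_upwards [main''] with ω hω h0
  filter_upwards [hω, hdiag] with q hq hne he
  obtain ⟨c, ⟨b1, b2⟩, ⟨b3, b4⟩⟩ := q
  simp only at hq hne he
  set T : Om K := upd (upd (upd (upd (upd ω i c) k1 b1) k2 b2) k3 b3) k4 b4 with hT
  have eqT : ∀ a, a ≠ k1 → a ≠ k2 → a ≠ k3 → a ≠ k4 → T a = upd ω i c a := by
    intro a g1 g2 g3 g4
    rw [hT, upd_ne _ g4, upd_ne _ g3, upd_ne _ g2, upd_ne _ g1]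
  have eA : ∀ a ∈ A, T a = upd ω i c a := fun a ha =>
    eqT a (fun h => a1 (h ▸ ha)) (fun h => a2 (h ▸ ha)) (fun h => a3 (h ▸ ha))
      (fun h => a4 (h ▸ ha))
  have eE : T ∈ E0 := by
    refine (hs.depE ω T fun a ha => ?_).1 h0
    rw [eA a ha.1, upd_ne _ ha.2]
  have Ti : T i = c := by
    rw [eqT i (Ne.symm i1) (Ne.symm i2) (Ne.symm i3) (Ne.symm i4), upd_same]
  have T1 : T k1 = b1 := by
    rw [hT, upd_ne _ (Ne.symm n41), upd_ne _ (Ne.symm n31), upd_ne _ (Ne.symm n21), upd_same]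
  have T2 : T k2 = b2 := by
    rw [hT, upd_ne _ (Ne.symm n42), upd_ne _ (Ne.symm n32), upd_same]
  have T3 : T k3 = b3 := by
    rw [hT, upd_ne _ (Ne.symm n43), upd_same]
  have T4 : T k4 = b4 := by
    rw [hT, upd_same]
  have eN1 : nm L i k1 k2 T = L (c, b1, b2) := by
    simp only [nm, Ti, T1, T2]
  have eN2 : nm L i k3 k4 T = L (c, b3, b4) := by
    simp only [nm, Ti, T3, T4]
  have e5 : L (c, b1, b2) = L (c, b3, b4) := by
    have := hq eE
    rw [eN1, eN2, hs.dep T (upd ω i c) _ eA, hs.dep T (upd ω i c) _ eA] at this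
    exact this he
  apply hne
  have h2 := congrArg w' e5
  have h3 := congrArg z e5
  rw [t.r2, t.r2] at h2
  rw [t.r3, t.r3] at h3
  exact Prod.ext h2 h3

end aux

theorem no_riso_abs {K X X' Y : Type} [MeasurableSpace X] [StandardBorelSpace X]
    [MeasurableSpace X'] [StandardBorelSpace X'] [MeasurableSpace Y] [StandardBorelSpace Y]
    (hK : ℵ_ 2 ≤ Cardinal.mk K)
    {E : X → X → Prop} {E' : X' → X' → Prop} (hE : Equivalence E) (hE' : Equivalence E')
    (mE : MeasurableSet {p : X × X | E p.1 p.2})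
    (mE' : MeasurableSet {p : X' × X' | E' p.1 p.2})
    (m : Measure Y) [IsProbabilityMeasure m] {I : Y → X} (hI : Measurable I)
    {Sa Sb : Y → Y} (mpa : MeasurePreserving Sa m m) (mpb : MeasurePreserving Sb m m)
    (ha : ∀ᵐ y ∂m, E (I (Sa y)) (I y)) (hb : ∀ᵐ y ∂m, E (I (Sb y)) (I y))
    {w w' : Y → C} {Y1 : Set Y} (hY1 : MeasurableSet Y1) (h1 : ∀ᵐ y ∂m, y ∈ Y1)
    (ht : ∀ y ∈ Y1, ∀ y' ∈ Y1, w y = w y' → E (I y) (I y') → y = y')
    (ht' : ∀ y ∈ Y1, ∀ y' ∈ Y1, w' y = w' y' → E (I y) (I y') → y = y')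
    {z0 za zb : Y → C} {L0 La Lb : C × C × C → Y} (t0 : Triple m w w' z0 L0)
    (ta : Triple m (fun y => w (Sa y)) w' za La) (tb : Triple m (fun y => w (Sb y)) w' zb Lb)
    (hSE : ∀ F : Y → X', Measurable F → (∀ᵐ y ∂m, E' (F (Sa y)) (F y)) →
      (∀ᵐ y ∂m, E' (F (Sb y)) (F y)) → ∃ x0, 0 < m {y | E' (F y) x0})
    {E0 : Set (Om K)} (hE0 : MeasurableSet E0) (h0 : P K E0 ≠ 0)
    {Φ : (Om K → X) → (Om K → X')} (hΦ : RIso E E' E0 Φ) : False := by
  classical
  have hKu : Uncountable K := uncountable_of hK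
  obtain ⟨A0, hA0, hA0E⟩ := exists_supp' E0 hE0
  have ex1 : ∀ i, ∃ (A : Set K) (s : Om K → Y → X'), A.Countable ∧
      (i ∉ A0 → A0 ⊆ A ∧ IsSec E' E0 Φ m I w i A s) := by
    intro i
    by_cases hi : i ∈ A0
    · obtain ⟨k, hk⟩ := fresh A0 hA0
      obtain ⟨A, s, _, h3⟩ := exists_sec hE hE' mE m hI t0 hY1 h1 ht hE0 h0 hΦ A0 hA0 hA0E k hk
      exact ⟨A, s, h3.ctb, fun h => absurd hi h⟩
    · obtain ⟨A, s, h2, h3⟩ := exists_sec hE hE' mE m hI t0 hY1 h1 ht hE0 h0 hΦ A0 hA0 hA0E i hi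
      exact ⟨A, s, h3.ctb, fun _ => ⟨h2, h3⟩⟩
  have ex2 : ∀ i, ∃ (A : Set K) (s : Om K → Y → X'), A.Countable ∧
      (i ∉ A0 → A0 ⊆ A ∧ IsSec E' E0 Φ m I w' i A s) := by
    intro i
    by_cases hi : i ∈ A0
    · obtain ⟨k, hk⟩ := fresh A0 hA0
      obtain ⟨A, s, _, h3⟩ := exists_sec hE hE' mE m hI t0.swap hY1 h1 ht' hE0 h0 hΦ A0 hA0
        hA0E k hk
      exact ⟨A, s, h3.ctb, fun h => absurd hi h⟩
    · obtain ⟨A, s, h2, h3⟩ := exists_sec hE hE' mE m hI t0.swap hY1 h1 ht' hE0 h0 hΦ A0 hA0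
        hA0E i hi
      exact ⟨A, s, h3.ctb, fun _ => ⟨h2, h3⟩⟩
  choose A s hAc hAs using ex1
  choose A' s' hAc' hAs' using ex2
  obtain ⟨i, j, hij, hi, hj, hiA', hjA⟩ := exists_free_pair hK A0 hA0 A A' hAc hAc'
  obtain ⟨hA0i, hs⟩ := hAs i hi
  obtain ⟨hA0j, hs'⟩ := hAs' j hj
  have c0 := compare (S := id) hE' hI (MeasurePreserving.id m)
    (Filter.Eventually.of_forall fun y => hE.refl _) t0 hΦ hij hs hs' hiA' hjA
  have ca := compare hE' hI mpa ha ta hΦ hij hs hs' hiA' hjA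
  have cb := compare hE' hI mpb hb tb hΦ hij hs hs' hiA' hjA
  have tp := two_points hE' hI t0 hY1 h1 ht hΦ hs
  have c0' := Measure.ae_ae_of_ae_prod c0
  have ca' := Measure.ae_ae_of_ae_prod ca
  have cb' := Measure.ae_ae_of_ae_prod cb
  -- a good point `ω`
  have hex : ∃ ω, ω ∈ E0 ∧
      (∀ᵐ y ∂m, E' (s i (upd ω i (w y)) y) (s' j (upd ω j (w' y)) y)) ∧
      (∀ᵐ y ∂m, E' (s i (upd ω i (w (Sa y))) (Sa y)) (s' j (upd ω j (w' y)) y)) ∧
      (∀ᵐ y ∂m, E' (s i (upd ω i (w (Sb y))) (Sb y)) (s' j (upd ω j (w' y)) y)) ∧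
      ∀ᵐ q ∂(μC.prod ((μC.prod μC).prod (μC.prod μC))),
        ¬ E' (s i (upd ω i q.1) (L0 (q.1, q.2.1))) (s i (upd ω i q.1) (L0 (q.1, q.2.2))) := by
    by_contra hne
    push Not at hne
    apply h0
    have hall : ∀ᵐ ω ∂(P K), ω ∉ E0 := by
      filter_upwards [c0', ca', cb', tp] with ω g0 ga gb gt hω
      have g0' : ∀ᵐ y ∂m, E' (s i (upd ω i (w y)) y) (s' j (upd ω j (w' y)) y) := by
        filter_upwards [g0] with y hy using hy hω
      have ga' : ∀ᵐ y ∂m, E' (s i (upd ω i (w (Sa y))) (Sa y)) (s' j (upd ω j (w' y)) y) := by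
        filter_upwards [ga] with y hy using hy hω
      have gb' : ∀ᵐ y ∂m, E' (s i (upd ω i (w (Sb y))) (Sb y)) (s' j (upd ω j (w' y)) y) := by
        filter_upwards [gb] with y hy using hy hω
      exact hne ω hω g0' ga' gb' (gt hω)
    have : {ω | ¬ ω ∉ E0} = E0 := by ext; simp
    rw [ae_iff, this] at hall
    exact hall
  obtain ⟨ω, hω, g0, ga, gb, gt⟩ := hex
  -- the function `F`
  let F : Y → X' := fun y => s' j (upd ω j (w' y)) y
  have hF : Measurable F :=
    hs'.meas.comp (((measurable_upd j).comp (measurable_const.prodMk t0.m2)).prodMk measurable_id)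
  have hFa : ∀ᵐ y ∂m, E' (F (Sa y)) (F y) := by
    have g0' := mpa.quasiMeasurePreserving.ae g0
    filter_upwards [ga, g0'] with y hy hy'
    exact hE'.trans (hE'.symm hy') hy
  have hFb : ∀ᵐ y ∂m, E' (F (Sb y)) (F y) := by
    have g0' := mpb.quasiMeasurePreserving.ae g0
    filter_upwards [gb, g0'] with y hy hy'
    exact hE'.trans (hE'.symm hy') hy
  obtain ⟨x0, hx0⟩ := hSE F hF hFa hFb
  let sg : Y → X' := fun y => s i (upd ω i (w y)) y
  have hsg : Measurable sg :=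
    hs.meas.comp (((measurable_upd i).comp (measurable_const.prodMk t0.m1)).prodMk measurable_id)
  have hB : 0 < m {y | E' (sg y) x0} := by
    refine hx0.trans_le ?_
    apply measure_mono_ae
    filter_upwards [g0] with y hy hy'
    exact hE'.trans hy hy'
  -- the measure of pairs in one fibre
  have hBm : MeasurableSet {y | E' (sg y) x0} := by
    have : Measurable (fun y => (sg y, x0)) := hsg.prodMk measurable_const
    exact this mE'
  let B3 : Set (C × (C × C)) := L0 ⁻¹' {y | E' (sg y) x0}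
  have hB3 : MeasurableSet B3 := t0.mL hBm
  have hB3pos : 0 < (μC.prod (μC.prod μC)) B3 := by
    have e : (fun y => (w y, w' y, z0 y)) ⁻¹' B3 = {y | E' (sg y) x0} := by
      ext y
      simp only [B3, Set.mem_preimage, t0.left]
    rw [← t0.mp.measure_preimage hB3.nullMeasurableSet, e]
    exact hB
  -- Fubini
  have hpos : ¬ ∀ᵐ c ∂μC, (μC.prod μC) (Prod.mk c ⁻¹' B3) = 0 := by
    intro h
    have := (Measure.measure_prod_null hB3).2 h
    rw [this] at hB3pos
    exact lt_irrefl _ hB3pos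
  apply hpos
  have gt' := Measure.ae_ae_of_ae_prod gt
  filter_upwards [gt'] with c hc
  by_contra hne
  have hc' := Measure.ae_ae_of_ae_prod hc
  -- choose a good first point
  have : ∃ u ∈ (Prod.mk c ⁻¹' B3), ∀ᵐ v ∂(μC.prod μC),
      ¬ E' (s i (upd ω i c) (L0 (c, u))) (s i (upd ω i c) (L0 (c, v))) := by
    by_contra hno
    push Not at hno
    apply hne
    refine measure_mono_null ?_ hc'
    intro u hu
    exact hno u hu
  obtain ⟨u, hu, huv⟩ := this
  apply hne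
  refine measure_mono_null ?_ huv
  intro v hv
  simp only [Set.mem_ofPred_eq, Set.mem_compl_iff, not_not]
  have e1 : w (L0 (c, u)) = c := t0.r1 _
  have e2 : w (L0 (c, v)) = c := t0.r1 _
  have hu' : E' (s i (upd ω i (w (L0 (c, u)))) (L0 (c, u))) x0 := hu
  have hv' : E' (s i (upd ω i (w (L0 (c, v)))) (L0 (c, v))) x0 := hv
  rw [e1] at hu'
  rw [e2] at hv'
  exact hE'.trans hu' (hE'.symm hv')

end

end RB57
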