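import Pool.Agent.RB57.Defs
import Pool.Agent.MBS.Cube

/-!
# RB57/Haar : uniqueness of translation invariant probability measures

`inv_unique`: for measurable `B`, by Fubini for the measure `ρ1.prod ρ2` and the set
`{(x, v) | add v x ∈ B}` : `ρ1 B = ∫⁻ v, ρ1 {x | add v x ∈ B} ∂ρ2 = (ρ1.prod ρ2) {(x, v) | add v x ∈ B}
= ∫⁻ x, ρ2 {v | add x v ∈ B} ∂ρ1 = ρ2 B` (first and last step: invariance).

`mp_xor`: `μc I` is invariant under `y ↦ y xor v` : `Measure.infinitePi_map_pi` (or `eq_infinitePi`) and
`MBS.coin_xor`. `mp_of_additive`: apply `inv_unique` on `C × C × C` to `μC.prod (μC.prod μC)` and `Measure.map T (μc I)`;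
the latter is invariant under translation by every `T v` (hence by everything, `T` is surjective),
because `T (y xor v) = T y xor T v` and `mp_xor`.
-/

namespace RB57

open scoped ENNReal Cardinal
open MeasureTheory TopologicalSpace MBS

noncomputable section

theorem inv_unique {Z : Type} [MeasurableSpace Z] (add : Z → Z → Z)
    (hm : Measurable (fun p : Z × Z => add p.1 p.2)) (hc : ∀ v x, add v x = add x v)
    (ρ1 ρ2 : Measure Z) [IsProbabilityMeasure ρ1] [IsProbabilityMeasure ρ2]
    (h1 : ∀ v, MeasurePreserving (add v) ρ1 ρ1) (h2 : ∀ v, MeasurePreserving (add v) ρ2 ρ2) :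
    ρ1 = ρ2 := by
  refine Measure.ext fun B hB => ?_
  have hS : MeasurableSet ((fun p : Z × Z => add p.1 p.2) ⁻¹' B) := hm hB
  have e1 : (ρ2.prod ρ1) ((fun p : Z × Z => add p.1 p.2) ⁻¹' B) = ρ1 B := by
    rw [Measure.prod_apply hS]
    have : ∀ v, ρ1 (Prod.mk v ⁻¹' ((fun p : Z × Z => add p.1 p.2) ⁻¹' B)) = ρ1 B := fun v =>
      (h1 v).measure_preimage hB.nullMeasurableSet
    simp only [this, lintegral_const, measure_univ, mul_one]
  have e2 : (ρ2.prod ρ1) ((fun p : Z × Z => add p.1 p.2) ⁻¹' B) = ρ2 B := by
    rw [Measure.prod_apply_symm hS]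
    have : ∀ x, ρ2 ((fun v => (v, x)) ⁻¹' ((fun p : Z × Z => add p.1 p.2) ⁻¹' B)) = ρ2 B := by
      intro x
      have h3 : ((fun v => (v, x)) ⁻¹' ((fun p : Z × Z => add p.1 p.2) ⁻¹' B)) = add x ⁻¹' B := by
        ext v
        simp only [Set.mem_preimage, hc v x]
      rw [h3]
      exact (h2 x).measure_preimage hB.nullMeasurableSet
    simp only [this, lintegral_const, measure_univ, mul_one]
  rw [← e1, e2]

/-- coordinatewise xor -/
def xo {I : Type} (v y : Cube I) : Cube I := fun i => xor (v i) (y i)

theorem mp_xor {I : Type} (v : Cube I) : MeasurePreserving (xo v) (μc I) (μc I) := by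
  classical
  have hm : Measurable (xo v) := by
    refine measurable_pi_lambda _ fun i => ?_
    have h1 : (fun x : Cube I => xo v x i) = (fun b => xor (v i) b) ∘ (fun x : Cube I => x i) := rfl
    rw [h1]
    exact (measurable_of_countable _).comp (measurable_pi_apply _)
  refine ⟨hm, ?_⟩
  refine Measure.eq_infinitePi _ fun s t ht => ?_
  rw [Measure.map_apply hm (MeasurableSet.pi s.countable_toSet fun i _ => ht i)]
  have hpre : (xo v) ⁻¹' Set.pi s t = Set.pi s (fun j => (fun c => xor (v j) c) ⁻¹' t j) := by
    ext x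
    simp only [Set.mem_preimage, Set.mem_pi, xo]
  rw [hpre, μc, Measure.infinitePi_pi]
  · refine Finset.prod_congr rfl fun i _ => ?_
    rw [coin_xor]
  · intro i _
    exact MeasurableSet.of_discrete

theorem measurable_xo2 : Measurable (fun p : C × C => xo p.1 p.2) := by
  refine measurable_pi_lambda _ fun i => ?_
  have h1 : (fun p : C × C => xo p.1 p.2 i) =
      (fun b : Bool × Bool => xor b.1 b.2) ∘ (fun p : C × C => (p.1 i, p.2 i)) := rfl
  rw [h1]
  refine (measurable_of_countable _).comp ?_
  exact ((measurable_pi_apply i).comp measurable_fst).prodMk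
    ((measurable_pi_apply i).comp measurable_snd)

theorem xo_comm {I : Type} (v y : Cube I) : xo v y = xo y v := by
  funext i
  simp only [xo, Bool.xor_comm]

theorem mp_of_additive {I : Type} (T : Cube I → C × C × C) (hT : Measurable T)
    (hadd : ∀ v y, T (xo v y) = (xo (T v).1 (T y).1, xo (T v).2.1 (T y).2.1,
      xo (T v).2.2 (T y).2.2)) (hs : Function.Surjective T) :
    MeasurePreserving T (μc I) (μC.prod (μC.prod μC)) := by
  have : IsProbabilityMeasure (Measure.map T (μc I)) :=
    Measure.isProbabilityMeasure_map hT.aemeasurable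
  refine ⟨hT, ?_⟩
  refine inv_unique (fun a b : C × C × C => (xo a.1 b.1, xo a.2.1 b.2.1, xo a.2.2 b.2.2))
    ?_ ?_ _ _ ?_ ?_
  · refine Measurable.prodMk ?_ (Measurable.prodMk ?_ ?_)
    · exact measurable_xo2.comp ((measurable_fst.comp measurable_fst).prodMk
        (measurable_fst.comp measurable_snd))
    · exact measurable_xo2.comp (((measurable_fst.comp measurable_snd).comp measurable_fst).prodMk
        ((measurable_fst.comp measurable_snd).comp measurable_snd))
    · exact measurable_xo2.comp (((measurable_snd.comp measurable_snd).comp measurable_fst).prodMk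
        ((measurable_snd.comp measurable_snd).comp measurable_snd))
  · intro v x
    simp only [xo_comm v.1 x.1, xo_comm v.2.1 x.2.1, xo_comm v.2.2 x.2.2]
  · intro v
    obtain ⟨v', rfl⟩ := hs v
    have hmeas : Measurable (fun b : C × C × C =>
        (xo (T v').1 b.1, xo (T v').2.1 b.2.1, xo (T v').2.2 b.2.2)) := by
      refine Measurable.prodMk ?_ (Measurable.prodMk ?_ ?_)
      · exact (mp_xor (T v').1).measurable.comp measurable_fst
      · exact (mp_xor (T v').2.1).measurable.comp (measurable_fst.comp measurable_snd)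
      · exact (mp_xor (T v').2.2).measurable.comp (measurable_snd.comp measurable_snd)
    refine ⟨hmeas, ?_⟩
    rw [Measure.map_map hmeas hT]
    have h3 : (fun b : C × C × C =>
        (xo (T v').1 b.1, xo (T v').2.1 b.2.1, xo (T v').2.2 b.2.2)) ∘ T = T ∘ xo v' := by
      funext y
      exact (hadd v' y).symm
    rw [h3, ← Measure.map_map hT (mp_xor v').measurable, (mp_xor v').map_eq]
  · intro v
    exact (mp_xor v.1).prod ((mp_xor v.2.1).prod (mp_xor v.2.2))

end

end RB57
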