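import Pool.Agent.RB57.Tri

/-!
# RB57/Sch : schemes

`χ : FB → ZMod 4` the homomorphism with value `1` on both generators.
`exists_sch`: let `c : ℕ` be the residue (`c < 4`), `V = {x | χ x = c}`, `a = of true`, `b = of false`. Let
`r : ℕ → FB` enumerate the complement of `V` (countable, infinite; surjective onto it) and put
`e m = ∑ i ∈ range (m + 1), ((r (unpair i).1).norm + 3)`, strictly increasing, and
`n m = a ^ (4 * e m + c)`, so `χ (n m) = c`, `norm (n m) = 4 * e m + c ≥ (r (unpair m).1).norm + 3`
(`FreeGroup.norm_of_pow`), `n` injective. Put `j (n m) = some (r (unpair m).1)` and `j x = none` if `x` is not in the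
range of `n`. `inf`: `r0 = r l`, `j (n (pair l k)) = some r0` for all `k`. `non`: contains `b ^ (4 * k + c)` for `k ≥ 1`
(not a power of `a`: e.g. by the homomorphism `FB → ℤ`, `a ↦ 1`, `b ↦ 0`).
-/

namespace RB57

open scoped ENNReal Cardinal
open MeasureTheory TopologicalSpace MBS

noncomputable section

/-- both generators are mapped to `1` -/
def χ : FB →* Multiplicative (ZMod 4) := FreeGroup.lift (fun _ => Multiplicative.ofAdd 1)

/-- the elements with `χ x = c` -/
def Vc (c : ZMod 4) : Set FB := {x | χ x = Multiplicative.ofAdd c}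

/-- A scheme on `V`: the coordinates `x ∈ V` with `j x = none` are read directly, for the others one reads
`y x xor y (j x)`, where `j x` is outside `V` and is much shorter than `x`. -/
structure Sch (V : Set FB) (j : FB → Option FB) : Prop where
  lt : ∀ x r, j x = some r → x ∈ V ∧ r ∉ V ∧ r.norm + 2 < x.norm
  inf : ∀ r ∉ V, {x | j x = some r}.Infinite
  non : {x | x ∈ V ∧ j x = none}.Infinite

private theorem pow_mem_Vc (c : ZMod 4) (b : Bool) (k : ℕ) :
    (FreeGroup.of b : FB) ^ (4 * k + c.val) ∈ Vc c := by
  show χ _ = _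
  rw [map_pow]
  unfold χ
  rw [FreeGroup.lift_apply_of, ← ofAdd_nsmul]
  congr 1
  rw [nsmul_eq_mul, mul_one]
  push_cast
  rw [ZMod.natCast_val, ZMod.cast_id]
  have h : (4 : ZMod 4) = 0 := by decide
  rw [h, zero_mul, zero_add]

private theorem pow_inj' (b : Bool) {m n : ℕ}
    (h : (FreeGroup.of b : FB) ^ m = FreeGroup.of b ^ n) : m = n := by
  have h1 := congrArg FreeGroup.norm h
  rwa [FreeGroup.norm_of_pow, FreeGroup.norm_of_pow] at h1

private theorem fb_countable : Countable FB := by
  unfold FB FreeGroup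
  infer_instance

/-- the number of letters `of true` -/
private def ψ : FB →* Multiplicative ℤ :=
  FreeGroup.lift (fun b => if b then Multiplicative.ofAdd 1 else 1)

private theorem pow_ne' {p q : ℕ} (hq : q ≠ 0) :
    (FreeGroup.of true : FB) ^ q ≠ FreeGroup.of false ^ p := by
  intro h
  have h1 := congrArg ψ h
  unfold ψ at h1
  rw [map_pow, map_pow, FreeGroup.lift_apply_of, FreeGroup.lift_apply_of] at h1
  simp only [if_true, Bool.false_eq_true, if_false, one_pow] at h1
  rw [← ofAdd_nsmul] at h1
  have h2 : (q • (1 : ℤ)) = 0 := h1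
  rw [nsmul_eq_mul, mul_one] at h2
  exact hq (by exact_mod_cast h2)

theorem exists_sch (c : ZMod 4) : ∃ j : FB → Option FB, Sch (Vc c) j := by
  classical
  have := fb_countable
  have hne : ((Vc c)ᶜ : Set FB).Nonempty := by
    refine ⟨FreeGroup.of true ^ (4 * 0 + (c + 1).val), fun h => ?_⟩
    have h1 := pow_mem_Vc (c + 1) true 0
    have h2 : χ _ = Multiplicative.ofAdd c := h
    have h3 : χ _ = Multiplicative.ofAdd (c + 1) := h1
    have h4 : c = c + 1 := Multiplicative.ofAdd.injective (h2.symm.trans h3)
    have h5 : (0 : ZMod 4) = 1 := by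
      have := congrArg (fun x => x - c) h4
      simpa using this
    exact absurd h5 (by decide)
  obtain ⟨rr, hrr⟩ := (Set.to_countable ((Vc c)ᶜ : Set FB)).exists_eq_range hne
  set e : ℕ → ℕ := fun m => ∑ i ∈ Finset.range (m + 1), ((rr (Nat.unpair i).1).norm + 3) with he
  have hemono : StrictMono e := by
    apply strictMono_nat_of_lt_succ
    intro m
    simp only [he]
    rw [Finset.sum_range_succ _ (m + 1)]
    omega
  have hege : ∀ m, (rr (Nat.unpair m).1).norm + 3 ≤ e m := by
    intro m
    simp only [he]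
    rw [Finset.sum_range_succ]
    omega
  set nn : ℕ → FB := fun m => FreeGroup.of true ^ (4 * e m + c.val) with hnn
  have hninj : Function.Injective nn := by
    intro m m' h
    have h1 := pow_inj' true h
    exact hemono.injective (by omega)
  have hnV : ∀ m, nn m ∈ Vc c := fun m => pow_mem_Vc c true (e m)
  have hnnorm : ∀ m, (rr (Nat.unpair m).1).norm + 2 < (nn m).norm := by
    intro m
    have h1 := hege m
    simp only [hnn]
    rw [FreeGroup.norm_of_pow]
    omega
  set j : FB → Option FB := fun x =>
    if h : ∃ m, nn m = x then some (rr (Nat.unpair h.choose).1) else none with hj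
  have hjn : ∀ m, j (nn m) = some (rr (Nat.unpair m).1) := by
    intro m
    have hex : ∃ m', nn m' = nn m := ⟨m, rfl⟩
    simp only [hj]
    rw [dif_pos hex]
    have h1 := hninj hex.choose_spec
    rw [h1]
  refine ⟨j, ⟨?_, ?_, ?_⟩⟩
  · intro x r h
    by_cases hex : ∃ m, nn m = x
    · obtain ⟨m, rfl⟩ := hex
      rw [hjn m] at h
      obtain rfl := Option.some.inj h
      refine ⟨hnV m, ?_, hnnorm m⟩
      have h1 : rr (Nat.unpair m).1 ∈ ((Vc c)ᶜ : Set FB) := by
        rw [hrr]
        exact ⟨_, rfl⟩
      exact h1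
    · simp only [hj] at h
      rw [dif_neg hex] at h
      cases h
  · intro r hr
    have h1 : r ∈ ((Vc c)ᶜ : Set FB) := hr
    rw [hrr] at h1
    obtain ⟨l, rfl⟩ := h1
    refine Set.infinite_of_injective_forall_mem (f := fun k => nn (Nat.pair l k)) ?_ ?_
    · intro k k' h
      exact (Nat.pair_eq_pair.1 (hninj h)).2
    · intro k
      show j (nn (Nat.pair l k)) = some (rr l)
      rw [hjn, Nat.unpair_pair]
  · refine Set.infinite_of_injective_forall_mem
      (f := fun k => (FreeGroup.of false : FB) ^ (4 * k + c.val)) ?_ ?_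
    · intro k k' h
      have h1 := pow_inj' false h
      omega
    · intro k
      refine ⟨pow_mem_Vc c false k, ?_⟩
      simp only [hj]
      rw [dif_neg]
      rintro ⟨m, hm⟩
      have h1 := hege m
      exact pow_ne' (by omega) hm

theorem Vc_infinite (c : ZMod 4) : (Vc c).Infinite := by
  refine Set.infinite_of_injective_forall_mem
    (f := fun k => (FreeGroup.of false : FB) ^ (4 * k + c.val)) ?_ (fun k => pow_mem_Vc c false k)
  intro k k' h
  have h1 := pow_inj' false h
  omega

theorem mem_Vc_mul {c : ZMod 4} {b : Bool} {x : FB} :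
    FreeGroup.of b * x ∈ Vc c ↔ x ∈ Vc (c - 1) := by
  show χ _ = _ ↔ χ _ = _
  rw [map_mul]
  have h : χ (FreeGroup.of b) = Multiplicative.ofAdd 1 := by
    unfold χ
    rw [FreeGroup.lift_apply_of]
  rw [h, ofAdd_sub, eq_div_iff_mul_eq', eq_comm, mul_comm]
  constructor <;> intro h1
  · exact h1.symm
  · exact h1.symm

theorem Vc_disjoint {c d : ZMod 4} (h : c ≠ d) {x : FB} (hx : x ∈ Vc c) : x ∉ Vc d := by
  intro hx'
  have h1 : χ x = Multiplicative.ofAdd c := hx
  have h2 : χ x = Multiplicative.ofAdd d := hx'
  exact h (Multiplicative.ofAdd.injective (h1.symm.trans h2))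

end

end RB57
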