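import Pool.Agent.RB57.Upd
import Pool.Agent.RB57.Supp
import Pool.Agent.RB57.Sel2
import Pool.Agent.RB57.Fib

/-!
# RB57/Sec : existence of sections

See Defs, step 2.
-/

namespace RB57

open scoped ENNReal Cardinal
open MeasureTheory TopologicalSpace MBS

noncomputable section

/-- the separating family, with `univ` added -/
def VV {Y : Type} (V : ℕ → Set Y) : Option ℕ → Set Y
  | none => Set.univ
  | some n => V n

/-- the saturation of a fibre -/
def Dn {K X Y : Type} (E : X → X → Prop) (I : Y → X) (w : Y → C) (Y1 : Set Y) (V : Set Y) (i : K) :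
    Set (Om K × X) := {p | ∃ y ∈ Y1 ∩ V, w y = p.1 i ∧ E (I y) p.2}

/-- the relation from which the section is selected -/
def Gam {K Y X' : Type} (D' : Option ℕ → Set (Om K × X')) (V : ℕ → Set Y) :
    Set (Om K × (Y × X')) :=
  {p | (p.1, p.2.2) ∈ D' none ∧ ∀ n, ((p.1, p.2.2) ∈ D' (some n) ↔ p.2.1 ∈ V n)}

theorem measurableSet_gam {K Y X' : Type} [MeasurableSpace Y] [MeasurableSpace X']
    {D' : Option ℕ → Set (Om K × X')} (hD' : ∀ o, MeasurableSet (D' o)) {V : ℕ → Set Y}
    (hV : ∀ n, MeasurableSet (V n)) : MeasurableSet (Gam D' V) := by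
  have h1 : Measurable (fun p : Om K × (Y × X') => (p.1, p.2.2)) :=
    measurable_fst.prodMk (measurable_snd.comp measurable_snd)
  have h2 : ∀ n, MeasurableSet {p : Om K × (Y × X') |
      ((p.1, p.2.2) ∈ D' (some n) ↔ p.2.1 ∈ V n)} := by
    intro n
    have e : {p : Om K × (Y × X') | ((p.1, p.2.2) ∈ D' (some n) ↔ p.2.1 ∈ V n)} =
        (((fun p : Om K × (Y × X') => (p.1, p.2.2)) ⁻¹' (D' (some n))) ∩
          ((fun p : Om K × (Y × X') => p.2.1) ⁻¹' (V n))) ∪
        (((fun p : Om K × (Y × X') => (p.1, p.2.2)) ⁻¹' (D' (some n)))ᶜ ∩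
          ((fun p : Om K × (Y × X') => p.2.1) ⁻¹' (V n))ᶜ) := by
      ext p
      simp only [Set.mem_ofPred_eq, Set.mem_union, Set.mem_inter_iff, Set.mem_preimage,
        Set.mem_compl_iff]
      tauto
    rw [e]
    have h3 := h1 (hD' (some n))
    have h4 : MeasurableSet ((fun p : Om K × (Y × X') => p.2.1) ⁻¹' (V n)) :=
      (measurable_fst.comp measurable_snd) (hV n)
    exact (h3.inter h4).union (h3.compl.inter h4.compl)
  have h5 : Gam D' V = ((fun p : Om K × (Y × X') => (p.1, p.2.2)) ⁻¹' (D' none)) ∩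
      ⋂ n, {p : Om K × (Y × X') | ((p.1, p.2.2) ∈ D' (some n) ↔ p.2.1 ∈ V n)} := by
    ext p
    simp only [Gam, Set.mem_ofPred_eq, Set.mem_inter_iff, Set.mem_preimage, Set.mem_iInter]
  rw [h5]
  exact (h1 (hD' none)).inter (MeasurableSet.iInter h2)

theorem exists_sec {K X X' Y : Type} [Uncountable K] [MeasurableSpace X] [StandardBorelSpace X]
    [MeasurableSpace X'] [StandardBorelSpace X'] [MeasurableSpace Y] [StandardBorelSpace Y]
    {E : X → X → Prop} {E' : X' → X' → Prop} (hE : Equivalence E) (hE' : Equivalence E')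
    (mE : MeasurableSet {p : X × X | E p.1 p.2})
    (m : Measure Y) [IsProbabilityMeasure m] {I : Y → X} (hI : Measurable I) {w q2 z : Y → C}
    {L : C × C × C → Y} (t : Triple m w q2 z L) {Y1 : Set Y} (hY1 : MeasurableSet Y1)
    (h1 : ∀ᵐ y ∂m, y ∈ Y1)
    (ht : ∀ y ∈ Y1, ∀ y' ∈ Y1, w y = w y' → E (I y) (I y') → y = y')
    {E0 : Set (Om K)} (hE0 : MeasurableSet E0) (h0 : P K E0 ≠ 0)
    {Φ : (Om K → X) → (Om K → X')} (hΦ : RIso E E' E0 Φ) (A0 : Set K) (hA0 : A0.Countable)
    (hA : ∀ ω ω' : Om K, (∀ k ∈ A0, ω k = ω' k) → (ω ∈ E0 ↔ ω' ∈ E0)) (i : K) (hi : i ∉ A0) :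
    ∃ (A : Set K) (s : Om K → Y → X'), A0 ⊆ A ∧ IsSec E' E0 Φ m I w i A s := by
  classical
  obtain ⟨fV, hfV, hfVi⟩ := MeasurableSpace.measurable_injection_nat_bool_of_countablySeparated Y
  let V : ℕ → Set Y := fun n => {y | fV y n = true}
  have hV : ∀ n, MeasurableSet (V n) := fun n =>
    ((measurable_pi_apply n).comp hfV) (MeasurableSet.of_discrete (s := {true}))
  have hVs : ∀ y y', (∀ n, y ∈ V n ↔ y' ∈ V n) → y = y' := by
    intro y y' h
    apply hfVi
    funext n
    have := h n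
    simp only [V, Set.mem_ofPred_eq] at this
    cases h1 : fV y n <;> cases h2 : fV y' n <;> simp_all
  have hVV : ∀ o, MeasurableSet (VV V o) := by
    intro o
    cases o with
    | none => exact MeasurableSet.univ
    | some n => exact hV n
  have hDm : ∀ o, MeasurableSet (Dn E I w Y1 (VV V o) i : Set (Om K × X)) := by
    intro o
    have h2 := measurableSet_fib hE mE hI t.m1 hY1 ht (hVV o)
    have h3 : Measurable (fun p : Om K × X => (p.1 i, p.2)) :=
      ((measurable_pi_apply i).comp measurable_fst).prodMk measurable_snd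
    exact h3 h2
  have hDinv : ∀ o, ∀ (ω : Om K) x y, E x y →
      ((ω, x) ∈ (Dn E I w Y1 (VV V o) i : Set (Om K × X)) ↔
        (ω, y) ∈ (Dn E I w Y1 (VV V o) i : Set (Om K × X))) := by
    intro o ω x y hxy
    constructor
    · rintro ⟨u, hu, hw, he⟩
      exact ⟨u, hu, hw, hE.trans he hxy⟩
    · rintro ⟨u, hu, hw, he⟩
      exact ⟨u, hu, hw, hE.trans he (hE.symm hxy)⟩
  choose D' hD'm hD' using fun o => hΦ.r3 _ (hDm o) (hDinv o)
  have hGm := measurableSet_gam hD'm hV
  obtain ⟨A1, hA1, hA1'⟩ := exists_supp _ hGm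
  let A : Set K := A0 ∪ A1 ∪ {i}
  have hAc : A.Countable := (hA0.union hA1).union (Set.countable_singleton i)
  have hA1A : A1 ⊆ A := fun a ha => Or.inl (Or.inr ha)
  have hA0A : A0 ⊆ A := fun a ha => Or.inl (Or.inl ha)
  obtain ⟨G0, hG0m, hG0⟩ := supp_mono hA1A hA1'
  have : Countable A := hAc.to_subtype
  -- fresh indices
  have hfresh : ∀ B : Set K, B.Countable → ∃ k, k ∉ B := by
    intro B hB
    by_contra h
    push Not at h
    have : (Set.univ : Set K).Countable := hB.mono fun x _ => h x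
    exact (not_countable (α := K)) (Set.countable_univ_iff.1 this)
  obtain ⟨j, hj⟩ := hfresh A hAc
  obtain ⟨k, hk⟩ := hfresh (A ∪ {j}) (hAc.union (Set.countable_singleton j))
  have hkA : k ∉ A := fun h => hk (Or.inl h)
  have hjk : j ≠ k := fun h => hk (Or.inr h.symm)
  have hiA : i ∈ A := Or.inr rfl
  have hij : i ≠ j := fun h => hj (h ▸ hiA)
  have hik : i ≠ k := fun h => hkA (h ▸ hiA)
  let N0 : Om K → Y := nm L i j k
  have hN0 : Measurable N0 := measurable_nm t.mL i j k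
  have hmp := mp_tri t hij hik hjk
  -- the index `i` and dependence
  have hrA : Measurable (fun ω : Om K => (fun a : A => ω a)) :=
    measurable_pi_lambda _ fun a => measurable_pi_apply _
  have hN0Y1 : ∀ᵐ ω ∂(P K), N0 ω ∈ Y1 := by
    have hl := lawOK_tri (K := K) (MeasurePreserving.id m) t (fun _ => rfl) hij hik hjk A hj hkA
    refine hl {p | p.2 ∈ Y1} (measurable_snd hY1) (fun _ _ _ _ => Iff.rfl) ?_
    exact (Measure.quasiMeasurePreserving_snd (μ := P K) (ν := m)).ae h1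
  have hwN0 : ∀ ω, w (N0 ω) = ω i := fun ω => t.r1 _
  have hfN : ∀ (N : Om K → Y), Measurable N → Measurable (fun ω => I (N ω)) := fun N hN =>
    hI.comp hN
  -- step 1: the test name
  have hT1 : ∀ᵐ ω ∂(P K), ω ∈ E0 →
      (ω, (N0 ω, Φ (fun ω => I (N0 ω)) ω)) ∈ Gam D' V := by
    have h2 : ∀ᵐ ω ∂(P K), ∀ o, ω ∈ E0 → E' (Φ (fun ω => I (N0 ω)) ω) (Φ (fun ω => I (N0 ω)) ω) →
        ((ω, I (N0 ω)) ∈ (Dn E I w Y1 (VV V o) i : Set (Om K × X)) ↔
          (ω, Φ (fun ω => I (N0 ω)) ω) ∈ D' o) :=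
      ae_all_iff.2 fun o => hD' o _ _ (hfN N0 hN0) (hΦ.meas _ (hfN N0 hN0))
    filter_upwards [h2, hN0Y1] with ω hω hy hω0
    have h3 : ∀ o, ((ω, I (N0 ω)) ∈ (Dn E I w Y1 (VV V o) i : Set (Om K × X)) ↔
        N0 ω ∈ VV V o) := by
      intro o
      constructor
      · rintro ⟨u, hu, hw, he⟩
        have := ht u hu.1 (N0 ω) hy (hw.trans (hwN0 ω).symm) he
        rw [← this]; exact hu.2
      · intro h
        exact ⟨N0 ω, ⟨hy, h⟩, hwN0 ω, hE.refl _⟩
    refine ⟨?_, fun n => ?_⟩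
    · exact (hω none hω0 (hE'.refl _)).1 ((h3 none).2 trivial)
    · rw [← hω (some n) hω0 (hE'.refl _), h3]
      rfl
  -- step 2: selection
  let Z : Type := {q : (A → C) × (Y × X') // q ∈ G0}
  have hZs : StandardBorelSpace Z := hG0m.standardBorel
  let q : Z → (A → C) × Y := fun z => (z.1.1, z.1.2.1)
  have hq : Measurable q := (measurable_fst.comp measurable_subtype_coe).prodMk
    (measurable_fst.comp (measurable_snd.comp measurable_subtype_coe))
  let f0 : Om K → (A → C) × Y := fun ω => ((fun a : A => ω a), N0 ω)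
  have hf0 : Measurable f0 := hrA.prodMk hN0
  have hT1' : ∀ᵐ ω ∂((P K).restrict E0), f0 ω ∈ Set.range q := by
    rw [ae_restrict_iff' hE0]
    filter_upwards [hT1] with ω hω hω0
    have h2 := (hG0 _).1 (hω hω0)
    exact ⟨⟨_, h2⟩, rfl⟩
  have hZne : Nonempty Z := by
    by_contra hne
    rw [not_nonempty_iff] at hne
    have h2 : ∀ᵐ ω ∂((P K).restrict E0), False := by
      filter_upwards [hT1'] with ω hω
      obtain ⟨z, _⟩ := hω
      exact hne.false z
    rw [ae_restrict_iff' hE0] at h2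
    exact h0 (measure_mono_null (t := {ω | ¬ (ω ∈ E0 → False)}) (fun ω hω h => h hω) h2)
  obtain ⟨σ, hσm, hσ⟩ := sel2 ((P K).restrict E0) f0 hf0 q hq hT1'
  let s : Om K → Y → X' := fun ω y => (σ ((fun a : A => ω a), y)).1.2.2
  let B : Set (Om K × Y) := {p | p.1 ∈ E0 →
    q (σ ((fun a : A => p.1 a), p.2)) = ((fun a : A => p.1 a), p.2)}
  have hrp : Measurable (fun p : Om K × Y => ((fun a : A => p.1 a), p.2)) :=
    (hrA.comp measurable_fst).prodMk measurable_snd
  have hBm : MeasurableSet B := by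
    have h2 : MeasurableSet {p : Om K × Y |
        q (σ ((fun a : A => p.1 a), p.2)) = ((fun a : A => p.1 a), p.2)} :=
      measurableSet_eq_fun (hq.comp (hσm.comp hrp)) hrp
    have h3 : B = ((fun p : Om K × Y => p.1) ⁻¹' E0)ᶜ ∪ {p : Om K × Y |
        q (σ ((fun a : A => p.1 a), p.2)) = ((fun a : A => p.1 a), p.2)} := by
      ext p
      simp only [B, Set.mem_ofPred_eq, Set.mem_union, Set.mem_compl_iff, Set.mem_preimage]
      tauto
    rw [h3]
    exact (measurable_fst hE0).compl.union h2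
  have hBdep : DepS A B := by
    intro ω ω' y h
    have e1 : (fun a : A => ω a) = fun a : A => ω' a := funext fun a => h a a.2
    have e2 := hA ω ω' fun a ha => h a (hA0A ha)
    simp only [B, Set.mem_ofPred_eq]
    rw [e1, e2]
  have hT2 : ∀ᵐ ω ∂(P K), (ω, N0 ω) ∈ B := by
    rw [ae_restrict_iff' hE0] at hσ
    exact hσ
  have hT3 : ∀ᵐ p ∂((P K).prod m), (upd p.1 i (w p.2), p.2) ∈ B := by
    have h2 := hmp.quasiMeasurePreserving.ae hT2
    filter_upwards [h2] with p hp
    rw [show N0 (tri w q2 z i j k p) = p.2 from nm_tri t hij hik hjk p] at hp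
    refine (hBdep _ _ _ ?_).1 hp
    intro a ha
    have haj : a ≠ j := fun h => hj (h ▸ ha)
    have hak : a ≠ k := fun h => hkA (h ▸ ha)
    by_cases hai : a = i
    · subst hai
      rw [(tri_apply hij hik hjk p).1, upd_same]
    · rw [tri_of_ne hai haj hak, upd_ne _ hai]
  refine ⟨A, s, hA0A, hAc, ?_, ?_, ?_, ?_⟩
  · intro ω ω' h
    exact hA ω ω' fun a ha => h a ⟨hA0A ha, fun hai => hi (by rw [Set.mem_singleton_iff] at hai; exact hai ▸ ha)⟩
  · exact (measurable_snd.comp (measurable_snd.comp measurable_subtype_coe)).comp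
      (hσm.comp hrp)
  · intro ω ω' y h
    have e1 : (fun a : A => ω a) = fun a : A => ω' a := funext fun a => h a a.2
    simp only [s]
    rw [e1]
  · intro N hN hwN hlaw
    have hgood := hlaw B hBm hBdep hT3
    have hsm : Measurable (fun ω => s ω (N ω)) :=
      ((measurable_snd.comp (measurable_snd.comp measurable_subtype_coe)).comp
        (hσm.comp hrp)).comp (measurable_id.prodMk hN)
    obtain ⟨f', hf', hf'e⟩ := hΦ.r2 _ hsm
    have h2 : ∀ᵐ ω ∂(P K), ∀ o, ω ∈ E0 → E' (Φ f' ω) (s ω (N ω)) →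
        ((ω, f' ω) ∈ (Dn E I w Y1 (VV V o) i : Set (Om K × X)) ↔ (ω, s ω (N ω)) ∈ D' o) :=
      ae_all_iff.2 fun o => hD' o _ _ hf' hsm
    filter_upwards [hgood, hf'e, h2, hΦ.r1 _ _ (hfN N hN) hf'] with ω hg he hd hr hω0
    have hgz := hg hω0
    have hz := (σ ((fun a : A => ω a), N ω)).2
    have e1 : (σ ((fun a : A => ω a), N ω)).1 = ((fun a : A => ω a), (N ω, s ω (N ω))) := by
      have h3 : (σ ((fun a : A => ω a), N ω)).1.1 = (fun a : A => ω a) :=
        congrArg Prod.fst hgz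
      have h4 : (σ ((fun a : A => ω a), N ω)).1.2.1 = N ω := congrArg Prod.snd hgz
      refine Prod.ext h3 (Prod.ext h4 rfl)
    rw [e1] at hz
    have hG := (hG0 (ω, (N ω, s ω (N ω)))).2 hz
    have hE1 := he hω0
    have hn : ∀ o, ((ω, f' ω) ∈ (Dn E I w Y1 (VV V o) i : Set (Om K × X)) ↔
        (ω, s ω (N ω)) ∈ D' o) := fun o => hd o hω0 hE1
    obtain ⟨u, hu, hwu, heu⟩ := (hn none).2 hG.1
    have huN : u = N ω := by
      apply hVs
      intro n
      constructor
      · intro hun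
        exact (hG.2 n).1 ((hn (some n)).1 ⟨u, ⟨hu.1, hun⟩, hwu, heu⟩)
      · intro hNn
        obtain ⟨u', hu', hwu', heu'⟩ := (hn (some n)).2 ((hG.2 n).2 hNn)
        have := ht u hu.1 u' hu'.1 (hwu.trans hwu'.symm) (hE.trans heu (hE.symm heu'))
        rw [this]; exact hu'.2
    subst huN
    have h5 := (hr hω0).1 heu
    exact hE'.trans (hE'.symm hE1) (hE'.symm h5)

end

end RB57
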