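import Pool.Agent.RB57.Defs

/-!
# RB57/Tri : triangular maps of the cube over the free group

`J x` is an optional second coordinate of smaller norm. `TJ J y x = y x xor y (J x)`.
`TJ_bij`: injective: if `TJ J y = TJ J y'`, strong induction on `norm x` gives `y x = y' x`. Surjective:
given `v` define `y` by well founded recursion on the norm: `y x = v x xor y (J x)`
(e.g. first define the functions `y_n` on the ball of radius `n` by recursion on `n`:
`yy 0 = v`, `yy (n + 1) x = v x xor (J x).elim false (yy n)`; then `yy n x = yy (norm x) x` for `norm x ≤ n` and
`y x = yy (norm x) x` works; `J x = none` if `norm x = 0`).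
`TJ_inv_measurable`: `Cube` is compact Hausdorff and `TJ` is a continuous bijection, so its inverse is
continuous (`Continuous.homeoOfEquivCompactToT2`).
-/

namespace RB57

open scoped ENNReal Cardinal
open MeasureTheory TopologicalSpace MBS

noncomputable section

abbrev FB : Type := FreeGroup Bool

/-- the triangular map -/
def TJ (J : FB → Option FB) (y : Cube FB) : Cube FB :=
  fun x => xor (y x) ((J x).elim false y)

theorem TJ_continuous (J : FB → Option FB) : Continuous (TJ J) := by
  refine continuous_pi fun x => ?_
  unfold TJ
  cases h : J x with
  | none => simpa using continuous_apply x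
  | some r =>
    have h1 : Continuous (fun b : Bool × Bool => xor b.1 b.2) := continuous_of_discreteTopology
    have h2 : Continuous (fun y : Cube FB => (y x, y r)) :=
      (continuous_apply x).prodMk (continuous_apply r)
    exact h1.comp h2

/-- the approximations of the inverse -/
def yy (J : FB → Option FB) : ℕ → Cube FB → Cube FB
  | 0, v => v
  | n + 1, v => fun x => xor (v x) ((J x).elim false (yy J n v))

theorem yy_none {J : FB → Option FB} {x : FB} (h : J x = none) (n : ℕ) (v : Cube FB) :
    yy J n v x = v x := by
  cases n with
  | zero => rfl
  | succ n => simp [yy, h]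

theorem yy_succ {J : FB → Option FB} (hJ : ∀ x r, J x = some r → r.norm < x.norm)
    (v : Cube FB) : ∀ n x, FreeGroup.norm x ≤ n → yy J (n + 1) v x = yy J n v x := by
  intro n
  induction n with
  | zero =>
    intro x hx
    cases h : J x with
    | none => rw [yy_none h, yy_none h]
    | some r =>
      have := hJ x r h
      omega
  | succ n ih =>
    intro x hx
    cases h : J x with
    | none => rw [yy_none h, yy_none h]
    | some r =>
      have h1 := hJ x r h
      have h2 := ih r (by omega)
      show xor (v x) ((J x).elim false (yy J (n + 1) v)) = xor (v x) ((J x).elim false (yy J n v))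
      rw [h]
      simp only [Option.elim_some, h2]

theorem yy_eq {J : FB → Option FB} (hJ : ∀ x r, J x = some r → r.norm < x.norm)
    (v : Cube FB) (x : FB) : ∀ n, FreeGroup.norm x ≤ n → yy J n v x = yy J (FreeGroup.norm x) v x := by
  intro n hn
  induction n, hn using Nat.le_induction with
  | base => rfl
  | succ n hn ih => rw [yy_succ hJ v n x hn, ih]

theorem measurable_yy (J : FB → Option FB) (n : ℕ) : Measurable (yy J n) := by
  induction n with
  | zero => exact measurable_id
  | succ n ih =>
    refine measurable_pi_lambda _ fun x => ?_
    show Measurable fun v : Cube FB => xor (v x) ((J x).elim false (yy J n v))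
    cases h : J x with
    | none => simpa using measurable_pi_apply x
    | some r =>
      simp only [Option.elim_some]
      exact (measurable_of_countable (fun b : Bool × Bool => xor b.1 b.2)).comp
        ((measurable_pi_apply x).prodMk ((measurable_pi_apply r).comp ih))

theorem TJ_inj {J : FB → Option FB} (hJ : ∀ x r, J x = some r → r.norm < x.norm)
    {y y' : Cube FB} (h : TJ J y = TJ J y') : y = y' := by
  have key : ∀ n x, FreeGroup.norm x = n → y x = y' x := by
    intro n
    induction n using Nat.strong_induction_on with
    | _ n ih =>
      intro x hx
      have h1 := congrFun h x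
      simp only [TJ] at h1
      cases hx2 : J x with
      | none => simpa [hx2] using h1
      | some r =>
        rw [hx2] at h1
        simp only [Option.elim_some] at h1
        have h2 := hJ x r hx2
        have h3 := ih r.norm (by omega) r rfl
        rw [h3] at h1
        exact Bool.xor_right_inj.1 (by rw [Bool.xor_comm, h1, Bool.xor_comm])
  funext x
  exact key _ x rfl

theorem TJ_inv {J : FB → Option FB} (hJ : ∀ x r, J x = some r → r.norm < x.norm) :
    ∃ R : Cube FB → Cube FB, Measurable R ∧ (∀ y, R (TJ J y) = y) ∧ ∀ v, TJ J (R v) = v := by
  let R : Cube FB → Cube FB := fun v x => yy J (FreeGroup.norm x) v x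
  have h1 : ∀ v, TJ J (R v) = v := by
    intro v
    funext x
    show xor (R v x) ((J x).elim false (R v)) = v x
    cases h : J x with
    | none =>
      simp only [Option.elim_none, Bool.xor_false]
      exact yy_none h _ v
    | some r =>
      have h2 := hJ x r h
      obtain ⟨m, hm⟩ : ∃ m, FreeGroup.norm x = m + 1 := ⟨FreeGroup.norm x - 1, by omega⟩
      have h3 : R v x = xor (v x) (R v r) := by
        show yy J (FreeGroup.norm x) v x = xor (v x) (yy J (FreeGroup.norm r) v r)
        rw [hm]
        show xor (v x) ((J x).elim false (yy J m v)) = _
        rw [h]
        simp only [Option.elim_some]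
        rw [yy_eq hJ v r m (by omega)]
      simp only [Option.elim_some]
      rw [h3, Bool.xor_assoc, Bool.xor_self, Bool.xor_false]
  refine ⟨R, ?_, ?_, h1⟩
  · refine measurable_pi_lambda _ fun x => ?_
    exact (measurable_pi_apply x).comp (measurable_yy J _)
  · intro y
    exact TJ_inj hJ (h1 (TJ J y))

end

end RB57
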