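import Pool.Agent.RB57.Sch
import Pool.Agent.RB57.Haar

/-!
# RB57/TripS : two schemes give a triple

Notation `wh j y x = y x xor y (j x) = TJ j y x`. `(shift FB g • y) x = y (g⁻¹ * x)` (`shift_smul_apply`; `•` of `FB` on `FB` is
left multiplication).
Define `J : FB → Option FB`: if `g * x ∈ V1` then `J x = (j1 (g * x)).map (g⁻¹ * ·)`, else `J x = j2 x` (which is `none`
outside `V2`). Then `J x = some r` implies `norm r < norm x`: in the first case `r = g⁻¹ * r'`,
`norm r ≤ norm r' + 1 < norm (g * x) - 1 ≤ norm x` (`FreeGroup.norm_mul_le`, `norm_inv_eq`, `hg`).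
Let `R` be the inverse of `TJ J` (`TJ_inv`) and `e3 : ℕ ≃ {x | x ∉ V2 ∧ g * x ∉ V1}` (infinite, countable). For
`T = TJ J`: `wh j1 (shift g • y) (e1 n) = T y (g⁻¹ * e1 n)`; `wh j2 y (e2 n) = T y (e2 n)` because `g * e2 n ∉ V1` (`hd`);
put `z y n = T y (e3 n)`. The three sets `g⁻¹ V1`, `V2`, rest are a partition of `FB`, so
`L c = R v` with `v x = c.1 (e1.symm (g * x))` for `g * x ∈ V1`, `v x = c.2.1 (e2.symm x)` for `x ∈ V2`,
`v x = c.2.2 (e3.symm x)` otherwise. Everything is measurable; `left, r1, r2, r3` are immediate;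
`mp` is `mp_of_additive` (surjective by `r1, r2, r3`; additive because `TJ` is).
-/

namespace RB57

open scoped ENNReal Cardinal
open MeasureTheory TopologicalSpace MBS

noncomputable section

/-- the scheme as a map to the Cantor space -/
def ww {V : Set FB} (j : FB → Option FB) (e : ℕ ≃ V) (y : Cube FB) : C := fun n => TJ j y (e n)

theorem measurable_ww {V : Set FB} (j : FB → Option FB) (e : ℕ ≃ V) :
    Measurable (ww j e) :=
  measurable_pi_iff.2 fun n => (measurable_pi_apply (e n : FB)).comp (TJ_continuous j).measurable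

theorem TJ_xo (J : FB → Option FB) (v y : Cube FB) :
    TJ J (xo v y) = xo (TJ J v) (TJ J y) := by
  funext x
  simp only [TJ, xo]
  cases J x with
  | none => simp
  | some r =>
    simp only [Option.elim_some, xo]
    cases v x <;> cases y x <;> cases v r <;> cases y r <;> rfl

theorem exists_triple {V1 V2 : Set FB} {j1 j2 : FB → Option FB} (h1 : Sch V1 j1)
    (h2 : Sch V2 j2) (e1 : ℕ ≃ V1) (e2 : ℕ ≃ V2) (g : FB) (hg : g.norm ≤ 1)
    (hd : ∀ x ∈ V2, g * x ∉ V1) (hr : {x | x ∉ V2 ∧ g * x ∉ V1}.Infinite) :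
    ∃ z L, Triple (μc FB) (fun y => ww j1 e1 (shift FB g • y)) (ww j2 e2) z L := by
  classical
  let J : FB → Option FB := fun x =>
    if g * x ∈ V1 then (j1 (g * x)).map (fun r => g⁻¹ * r) else j2 x
  have hJ : ∀ x r, J x = some r → r.norm < x.norm := by
    intro x r hxr
    by_cases hx : g * x ∈ V1
    · simp only [J, hx, if_true] at hxr
      rw [Option.map_eq_some_iff] at hxr
      obtain ⟨r', hr', hrr⟩ := hxr
      have h3 := (h1.lt _ _ hr').2.2
      have h4 : (g⁻¹ * r').norm ≤ (g⁻¹).norm + r'.norm := FreeGroup.norm_mul_le _ _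
      have h5 : (g * x).norm ≤ g.norm + x.norm := FreeGroup.norm_mul_le _ _
      rw [FreeGroup.norm_inv_eq] at h4
      rw [← hrr]
      omega
    · simp only [J, hx, if_false] at hxr
      have h3 := (h2.lt _ _ hxr).2.2
      omega
  obtain ⟨R, hRm, hRl, hRr⟩ := TJ_inv hJ
  have : Infinite {x | x ∉ V2 ∧ g * x ∉ V1} := Set.infinite_coe_iff.2 hr
  obtain ⟨e3⟩ : Nonempty (ℕ ≃ {x | x ∉ V2 ∧ g * x ∉ V1}) := nonempty_equiv_of_countable
  have hA : ∀ (y : Cube FB) x, g * x ∈ V1 → TJ j1 (shift FB g • y) (g * x) = TJ J y x := by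
    intro y x hx
    simp only [TJ, J, hx, if_true]
    cases j1 (g * x) with
    | none => simp
    | some r => simp
  have hB : ∀ (y : Cube FB) x, x ∈ V2 → TJ j2 y x = TJ J y x := by
    intro y x hx
    simp only [TJ, J, hd x hx, if_false]
  have hq1 : ∀ (y : Cube FB) n, ww j1 e1 (shift FB g • y) n = TJ J y (g⁻¹ * (e1 n : FB)) := by
    intro y n
    have h3 : g * (g⁻¹ * (e1 n : FB)) = (e1 n : FB) := by simp
    have h4 := hA y (g⁻¹ * (e1 n : FB)) (by rw [h3]; exact (e1 n).2)
    rw [h3] at h4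
    exact h4
  have hq2 : ∀ (y : Cube FB) n, ww j2 e2 y n = TJ J y (e2 n : FB) := by
    intro y n
    exact hB y _ (e2 n).2
  let z : Cube FB → C := fun y n => TJ J y (e3 n : FB)
  let v : C × C × C → Cube FB := fun c x =>
    if h : g * x ∈ V1 then c.1 (e1.symm ⟨g * x, h⟩)
    else if h' : x ∈ V2 then c.2.1 (e2.symm ⟨x, h'⟩) else c.2.2 (e3.symm ⟨x, h', h⟩)
  have hvm : Measurable v := by
    refine measurable_pi_iff.2 fun x => ?_
    by_cases h : g * x ∈ V1
    · have : (fun c => v c x) = fun c : C × C × C => c.1 (e1.symm ⟨g * x, h⟩) := by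
        funext c
        simp only [v, dif_pos h]
      rw [this]
      exact (measurable_pi_apply _).comp measurable_fst
    · by_cases h' : x ∈ V2
      · have : (fun c => v c x) = fun c : C × C × C => c.2.1 (e2.symm ⟨x, h'⟩) := by
          funext c
          simp only [v, dif_neg h, dif_pos h']
        rw [this]
        exact (measurable_pi_apply _).comp (measurable_fst.comp measurable_snd)
      · have : (fun c => v c x) = fun c : C × C × C => c.2.2 (e3.symm ⟨x, h', h⟩) := by
          funext c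
          simp only [v, dif_neg h, dif_neg h']
        rw [this]
        exact (measurable_pi_apply _).comp (measurable_snd.comp measurable_snd)
  have hv1 : ∀ c n, v c (g⁻¹ * (e1 n : FB)) = c.1 n := by
    intro c n
    have h3 : g * (g⁻¹ * (e1 n : FB)) = (e1 n : FB) := by simp
    have h4 : g * (g⁻¹ * (e1 n : FB)) ∈ V1 := by rw [h3]; exact (e1 n).2
    have h5 : v c (g⁻¹ * (e1 n : FB)) = c.1 (e1.symm ⟨g * (g⁻¹ * (e1 n : FB)), h4⟩) := by
      simp only [v, dif_pos h4]
    rw [h5]
    refine congrArg c.1 ?_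
    rw [Equiv.symm_apply_eq]
    exact Subtype.ext h3
  have hv2 : ∀ c n, v c (e2 n : FB) = c.2.1 n := by
    intro c n
    have h4 : g * (e2 n : FB) ∉ V1 := hd _ (e2 n).2
    have h5 : v c (e2 n : FB) = c.2.1 (e2.symm ⟨(e2 n : FB), (e2 n).2⟩) := by
      simp only [v, dif_neg h4, dif_pos (e2 n).2]
    rw [h5]
    exact congrArg c.2.1 (e2.symm_apply_apply n)
  have hv3 : ∀ c n, v c (e3 n : FB) = c.2.2 n := by
    intro c n
    have h3 := (e3 n).2
    have h5 : v c (e3 n : FB) = c.2.2 (e3.symm ⟨(e3 n : FB), h3.1, h3.2⟩) := by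
      simp only [v, dif_neg h3.2, dif_neg h3.1]
    rw [h5]
    exact congrArg c.2.2 (e3.symm_apply_apply n)
  have hr1 : ∀ c, (fun y : Cube FB => ww j1 e1 (shift FB g • y)) (R (v c)) = c.1 := by
    intro c
    funext n
    show ww j1 e1 (shift FB g • R (v c)) n = c.1 n
    rw [hq1, hRr, hv1]
  have hr2 : ∀ c, ww j2 e2 (R (v c)) = c.2.1 := by
    intro c
    funext n
    rw [hq2, hRr, hv2]
  have hr3 : ∀ c, z (R (v c)) = c.2.2 := by
    intro c
    funext n
    show TJ J (R (v c)) (e3 n : FB) = c.2.2 n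
    rw [hRr, hv3]
  have hm1 : Measurable (fun y : Cube FB => ww j1 e1 (shift FB g • y)) :=
    (measurable_ww j1 e1).comp (continuous_const_smul (shift FB g)).measurable
  have hmz : Measurable z :=
    measurable_pi_iff.2 fun n => (measurable_pi_apply (e3 n : FB)).comp
      (TJ_continuous J).measurable
  refine ⟨z, fun c => R (v c), hm1, measurable_ww j2 e2, hmz, hRm.comp hvm, ?_, ?_, hr1, hr2,
    hr3⟩
  · refine mp_of_additive _ (hm1.prodMk ((measurable_ww j2 e2).prodMk hmz)) ?_ ?_
    · intro u y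
      refine Prod.ext ?_ (Prod.ext ?_ ?_)
      · funext n
        show ww j1 e1 (shift FB g • xo u y) n =
          xor (ww j1 e1 (shift FB g • u) n) (ww j1 e1 (shift FB g • y) n)
        rw [hq1, hq1, hq1, TJ_xo]
        rfl
      · funext n
        show ww j2 e2 (xo u y) n = xor (ww j2 e2 u n) (ww j2 e2 y n)
        rw [hq2, hq2, hq2, TJ_xo]
        rfl
      · funext n
        show TJ J (xo u y) (e3 n : FB) = xor (TJ J u (e3 n : FB)) (TJ J y (e3 n : FB))
        rw [TJ_xo]
        rfl
    · intro c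
      exact ⟨R (v c), Prod.ext (hr1 c) (Prod.ext (hr2 c) (hr3 c))⟩
  · intro y
    show R (v (ww j1 e1 (shift FB g • y), ww j2 e2 y, z y)) = y
    have h3 : v (ww j1 e1 (shift FB g • y), ww j2 e2 y, z y) = TJ J y := by
      funext x
      by_cases h : g * x ∈ V1
      · simp only [v, dif_pos h]
        rw [hq1, Equiv.apply_symm_apply]
        simp
      · by_cases h' : x ∈ V2
        · simp only [v, dif_neg h, dif_pos h']
          rw [hq2, Equiv.apply_symm_apply]
        · simp only [v, dif_neg h, dif_neg h']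
          show TJ J y (e3 (e3.symm ⟨x, h', h⟩) : FB) = TJ J y x
          rw [Equiv.apply_symm_apply]
    rw [h3, hRl]

end

end RB57
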