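import Pool.Agent.RB57.Defs
import Pool.Agent.MBS.Cube

/-!
# RB57/Upd : changing finitely many coordinates preserves the product measure

`upd ω i c = Function.update ω i c`.

`mp_upd`: `P K = Measure.infinitePi _`; by `Measure.eq_infinitePi` it is enough to compute the
measure of `{p | upd p.1 i p.2 ∈ Set.pi s t}`, `s` finite. If `i ∉ s` it is `(Set.pi s t) ×ˢ univ`, if
`i ∈ s` it is `(Set.pi (s.erase i) t) ×ˢ t i`; use `Measure.infinitePi_pi` and `Finset.mul_prod_erase`.
`mp_tri`: compose `mp_upd` three times with `Triple.mp` (associativity of products; or again by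
`eq_infinitePi`). `name_tri`: `upd_same`, `upd_ne` and `Triple.left`.

`lawOK_tri`: given a measurable `B` with `DepS A B` and `(upd p.1 i (w p.2), p.2) ∈ B` for a.e. `p`. The map
`(ω, y) ↦ (ω, S y)` preserves `(P K).prod m`, so `(upd p.1 i (w (S p.2)), S p.2) ∈ B` a.e. Put
`T p = upd (upd (upd p.1 i (q1 p.2)) j (q2 p.2)) k (z p.2)`, `q1 = w ∘ S`. `T` preserves the measures
(`mp_tri`), the set `{ω | (ω, S (L (ω i, ω j, ω k))) ∈ B}` is measurable, so (`MeasurePreserving.map_eq`,
`ae_map_iff`) it is enough that for a.e. `p`: `(T p, S (L (T p i, T p j, T p k))) = (T p, S p.2) ∈ B`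
(`name_tri`), and `T p` and `upd p.1 i (w (S p.2))` agree on `A` because `j, k ∉ A`.
-/

namespace RB57

open scoped ENNReal Cardinal
open MeasureTheory TopologicalSpace MBS

noncomputable section

variable {K Y : Type} [MeasurableSpace Y]

@[simp] theorem upd_same (ω : Om K) (i : K) (c : C) : upd ω i c i = c := by
  simp [upd]

theorem upd_ne (ω : Om K) {i k : K} (h : k ≠ i) (c : C) : upd ω i c k = ω k := by
  simp [upd, h]

theorem measurable_upd (i : K) : Measurable (fun p : Om K × C => upd p.1 i p.2) := by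
  rw [measurable_pi_iff]
  intro k
  by_cases hk : k = i
  · subst hk
    have h : (fun p : Om K × C => upd p.1 k p.2 k) = fun p => p.2 := by
      funext p
      rw [upd_same]
    rw [h]
    exact measurable_snd
  · have h : (fun p : Om K × C => upd p.1 i p.2 k) = fun p => p.1 k := by
      funext p
      rw [upd_ne _ hk]
    rw [h]
    exact (measurable_pi_apply k).comp measurable_fst

theorem mp_upd (i : K) :
    MeasurePreserving (fun p : Om K × C => upd p.1 i p.2) ((P K).prod μC) (P K) := by
  classical
  refine ⟨measurable_upd i, ?_⟩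
  unfold P
  apply Measure.eq_infinitePi
  intro s t ht
  rw [Measure.map_apply (measurable_upd i)
    (MeasurableSet.pi s.countable_toSet (fun j _ => ht j))]
  by_cases hi : i ∈ s
  · have h1 : (fun p : Om K × C => upd p.1 i p.2) ⁻¹' (Set.pi s t)
        = (Set.pi ((s.erase i : Finset K) : Set K) t) ×ˢ (t i) := by
      ext p
      simp only [Set.mem_preimage, Set.mem_pi, Set.mem_prod, Finset.mem_coe, Finset.mem_erase]
      constructor
      · intro h
        refine ⟨fun k hk => ?_, ?_⟩
        · have := h k hk.2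
          rwa [upd_ne _ hk.1] at this
        · have := h i hi
          rwa [upd_same] at this
      · rintro ⟨h2, h3⟩ k hk
        by_cases hki : k = i
        · subst hki
          rw [upd_same]
          exact h3
        · rw [upd_ne _ hki]
          exact h2 k ⟨hki, hk⟩
    rw [h1, Measure.prod_prod, Measure.infinitePi_pi _ (fun j _ => ht j),
      ← Finset.mul_prod_erase s _ hi, mul_comm]
  · have h1 : (fun p : Om K × C => upd p.1 i p.2) ⁻¹' (Set.pi s t)
        = (Set.pi (s : Set K) t) ×ˢ Set.univ := by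
      ext p
      simp only [Set.mem_preimage, Set.mem_pi, Set.mem_prod, Finset.mem_coe, Set.mem_univ,
        and_true]
      constructor
      · intro h k hk
        have := h k hk
        rwa [upd_ne _ (by rintro rfl; exact hi hk)] at this
      · intro h k hk
        rw [upd_ne _ (by rintro rfl; exact hi hk)]
        exact h k hk
    rw [h1, Measure.prod_prod, Measure.infinitePi_pi _ (fun j _ => ht j), measure_univ, mul_one]

private theorem mp_upd_prod {Z : Type} [MeasurableSpace Z] (R : Measure Z)
    [IsProbabilityMeasure R] (i : K) :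
    MeasurePreserving (fun p : Om K × (C × Z) => (upd p.1 i p.2.1, p.2.2))
      ((P K).prod (μC.prod R)) ((P K).prod R) := by
  have h1 := (measurePreserving_prodAssoc (P K) μC R).symm
  have h2 := (mp_upd (K := K) i).prod (MeasurePreserving.id R)
  exact h2.comp h1

/-- change three coordinates -/
def tri (q1 q2 z : Y → C) (i j k : K) (p : Om K × Y) : Om K :=
  upd (upd (upd p.1 i (q1 p.2)) j (q2 p.2)) k (z p.2)

theorem tri_apply {q1 q2 z : Y → C} {i j k : K} (hij : i ≠ j) (hik : i ≠ k) (hjk : j ≠ k)
    (p : Om K × Y) : tri q1 q2 z i j k p i = q1 p.2 ∧ tri q1 q2 z i j k p j = q2 p.2 ∧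
      tri q1 q2 z i j k p k = z p.2 := by
  unfold tri
  refine ⟨?_, ?_, ?_⟩
  · rw [upd_ne _ hik, upd_ne _ hij, upd_same]
  · rw [upd_ne _ hjk, upd_same]
  · rw [upd_same]

theorem tri_of_ne {q1 q2 z : Y → C} {i j k l : K} (hi : l ≠ i) (hj : l ≠ j) (hk : l ≠ k)
    (p : Om K × Y) : tri q1 q2 z i j k p l = p.1 l := by
  unfold tri
  rw [upd_ne _ hk, upd_ne _ hj, upd_ne _ hi]

theorem mp_tri {m : Measure Y} [IsProbabilityMeasure m] {q1 q2 z : Y → C} {L : C × C × C → Y}
    (h : Triple m q1 q2 z L) {i j k : K} (hij : i ≠ j) (hik : i ≠ k) (hjk : j ≠ k) :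
    MeasurePreserving (tri q1 q2 z i j k) ((P K).prod m) (P K) := by
  have h1 := (MeasurePreserving.id (P K)).prod h.mp
  have h2 := mp_upd_prod (K := K) (μC.prod μC) i
  have h3 := mp_upd_prod (K := K) μC j
  have h4 := mp_upd (K := K) k
  exact h4.comp (h3.comp (h2.comp h1))

/-- the name of a random element of `Y` -/
def nm (L : C × C × C → Y) (i j k : K) (ω : Om K) : Y := L (ω i, ω j, ω k)

theorem measurable_nm {L : C × C × C → Y} (hL : Measurable L) (i j k : K) :
    Measurable (nm L i j k) :=
  hL.comp ((measurable_pi_apply i).prodMk ((measurable_pi_apply j).prodMk (measurable_pi_apply k)))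

theorem nm_tri {m : Measure Y} {q1 q2 z : Y → C} {L : C × C × C → Y}
    (h : Triple m q1 q2 z L) {i j k : K} (hij : i ≠ j) (hik : i ≠ k) (hjk : j ≠ k)
    (p : Om K × Y) : nm L i j k (tri q1 q2 z i j k p) = p.2 := by
  obtain ⟨h1, h2, h3⟩ := tri_apply (q1 := q1) (q2 := q2) (z := z) hij hik hjk p
  unfold nm
  rw [h1, h2, h3, h.left]

/-- the first two maps of a triple can be exchanged -/
theorem Triple.swap {m : Measure Y} [IsProbabilityMeasure m] {q1 q2 z : Y → C}
    {L : C × C × C → Y} (h : Triple m q1 q2 z L) :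
    Triple m q2 q1 z (fun c => L (c.2.1, c.1, c.2.2)) := by
  refine ⟨h.m2, h.m1, h.mz, ?_, ?_, h.left, fun c => h.r2 _, fun c => h.r1 _, fun c => h.r3 _⟩
  · exact h.mL.comp ((measurable_fst.comp measurable_snd).prodMk
      (measurable_fst.prodMk (measurable_snd.comp measurable_snd)))
  · have h1 := (measurePreserving_prodAssoc μC μC μC).symm
    have h2 := (Measure.measurePreserving_swap (μ := μC) (ν := μC)).prod (MeasurePreserving.id μC)
    have h3 := measurePreserving_prodAssoc μC μC μC
    exact h3.comp (h2.comp (h1.comp h.mp))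

theorem lawOK_tri {m : Measure Y} [IsProbabilityMeasure m] {w : Y → C} {S : Y → Y}
    (hS : MeasurePreserving S m m) {q1 q2 z : Y → C} {L : C × C × C → Y}
    (h : Triple m q1 q2 z L) (hq : ∀ y, q1 y = w (S y)) {i j k : K} (hij : i ≠ j) (hik : i ≠ k)
    (hjk : j ≠ k) (A : Set K) (hj : j ∉ A) (hk : k ∉ A) :
    LawOK m w i A (fun ω => S (nm L i j k ω)) := by
  intro B hB hdep hae
  have hT := mp_tri (K := K) h hij hik hjk
  have h1 := ((MeasurePreserving.id (P K)).prod hS).quasiMeasurePreserving.ae hae
  have hmeas : MeasurableSet {ω : Om K | (ω, S (nm L i j k ω)) ∈ B} :=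
    (measurable_id.prodMk (hS.measurable.comp (measurable_nm h.mL i j k))) hB
  rw [← hT.map_eq, ae_map_iff hT.measurable.aemeasurable hmeas]
  filter_upwards [h1] with p hp
  rw [nm_tri h hij hik hjk]
  refine (hdep _ _ _ (fun l hl => ?_)).1 hp
  have hlj : l ≠ j := by rintro rfl; exact hj hl
  have hlk : l ≠ k := by rintro rfl; exact hk hl
  by_cases hli : l = i
  · subst hli
    rw [(tri_apply hij hik hjk p).1, hq]
    exact upd_same _ _ _
  · rw [tri_of_ne hli hlj hlk]
    exact upd_ne _ hli _

end

end RB57
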